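import Pool.Agent.FermatFam.UnitSum

/-!
# Simultaneous approximation by unit multiples
-/

set_option autoImplicit false

open Finset Complex

namespace Pool.Agent.FermatFam

theorem cos_le_of_far (x ε : ℝ) (h0 : 0 ≤ ε) (h : ∀ z : ℤ, ε ≤ |x - z|) :
    Real.cos (2 * Real.pi * x) ≤ Real.cos (2 * Real.pi * ε) := by
  have h1 := h (round x)
  have h2 := abs_sub_round x
  have e : Real.cos (2 * Real.pi * x) = Real.cos (2 * Real.pi * |x - round x|) := by
    have e1 : Real.cos (2 * Real.pi * x) = Real.cos (2 * Real.pi * (x - round x)) := by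
      have : 2 * Real.pi * (x - round x) = 2 * Real.pi * x - (round x : ℤ) * (2 * Real.pi) := by ring
      rw [this, Real.cos_sub_int_mul_two_pi]
    rw [e1]
    rcases abs_cases (x - round x) with ⟨h, _⟩ | ⟨h, _⟩
    · rw [h]
    · rw [h, mul_neg, Real.cos_neg]
  rw [e]
  have hpi := Real.pi_pos
  apply Real.cos_le_cos_of_nonneg_of_le_pi
  · positivity
  · nlinarith
  · gcongr

theorem prod_kernel_expand (r M : ℕ) (θ : Fin r → ℝ) :
    (((∏ i, ((1 + Real.cos (θ i)) / 2) ^ M : ℝ)) : ℂ)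
      = ∑ p ∈ Fintype.piFinset (fun _ : Fin r => range (2 * M + 1)),
        ((∏ i, kc M (p i) : ℝ) : ℂ) * exp ((∑ i, (((p i : ℤ) - (M : ℤ) : ℤ) : ℂ) * θ i) * I) := by
  rw [Complex.ofReal_prod]
  simp_rw [kernel_expand]
  rw [Finset.prod_univ_sum]
  refine Finset.sum_congr rfl (fun p _ => ?_)
  rw [Finset.prod_mul_distrib, ← Complex.exp_sum, Complex.ofReal_prod]
  congr 2
  rw [Finset.sum_mul]
  refine Finset.sum_congr rfl (fun i _ => ?_)
  ring

theorem sum_prod_kc (r M : ℕ) :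
    ∑ p ∈ Fintype.piFinset (fun _ : Fin r => range (2 * M + 1)), (∏ i, kc M (p i)) = 1 := by
  rw [← Finset.prod_univ_sum]
  simp [sum_kc]

theorem approx (r q : ℕ) (hq : 0 < q) (ε : ℝ) (hε : 0 < ε) :
    ∃ N Q' : ℕ, ∀ (m : ℕ), 0 < m → q ∣ m → ∀ (k : Fin r → ℤ) (s : ℤ), IsCoprime s (q : ℤ) →
      (∀ μ : Fin r → ℤ, μ ≠ 0 → (∀ i, |μ i| ≤ N) → ∀ u : ℕ, 0 < u → u ≤ Q' →
        ¬ (m : ℤ) ∣ u * ∑ i, μ i * k i) →
      ∀ y : Fin r → ℝ, ∃ t : ℤ, IsCoprime t (m : ℤ) ∧ (q : ℤ) ∣ t - s ∧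
        ∀ i, ∃ z : ℤ, |(t * k i : ℝ) / m - y i - z| < ε := by
  classical
  set ε' : ℝ := min ε (1 / 2) with hε'
  have hε'0 : 0 < ε' := lt_min hε (by norm_num)
  have hε'1 : ε' ≤ 1 / 2 := min_le_right _ _
  set ρ : ℝ := (1 + Real.cos (2 * Real.pi * ε')) / 2 with hρ
  have hpi := Real.pi_pos
  have hρ0 : 0 ≤ ρ := by
    have := Real.neg_one_le_cos (2 * Real.pi * ε')
    rw [hρ]; linarith
  have hρ1 : ρ < 1 := by
    have h1 : Real.cos (2 * Real.pi * ε') < Real.cos 0 := by
      apply Real.cos_lt_cos_of_nonneg_of_le_pi le_rfl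
      · nlinarith
      · positivity
    rw [Real.cos_zero] at h1
    rw [hρ]; linarith
  obtain ⟨M, hM⟩ := exists_M r ρ hρ0 hρ1
  set δ : ℝ := kc M M ^ r - ρ ^ M with hδ
  have hδ0 : 0 < δ := by rw [hδ]; linarith
  obtain ⟨C, hC⟩ := exists_nat_gt ((q : ℝ) / δ)
  obtain ⟨N1, hN1⟩ := totient_large C
  refine ⟨M, q * N1, fun m hm hqm k s hs hfar y => ?_⟩
  by_contra hcon
  push Not at hcon
  have hmz : NeZero m := ⟨hm.ne'⟩
  -- the weights
  set J : (ZMod m)ˣ → ℝ := fun u => if (q : ℤ) ∣ rep u - s then (1 : ℝ) else 0 with hJ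
  set θ : (ZMod m)ˣ → Fin r → ℝ := fun u i => 2 * Real.pi * ((rep u * k i : ℝ) / m - y i) with hθ
  set P : (ZMod m)ˣ → ℝ := fun u => ∏ i, ((1 + Real.cos (θ u i)) / 2) ^ M with hP
  set W : ℝ := ∑ u, J u with hW
  have hJ0 : ∀ u, 0 ≤ J u := by intro u; rw [hJ]; dsimp only; split_ifs <;> norm_num
  have h1 : ∑ u, J u * P u ≤ ρ ^ M * W := by
    rw [hW, Finset.mul_sum]
    refine Finset.sum_le_sum (fun u _ => ?_)
    by_cases hu : (q : ℤ) ∣ rep u - s
    · have hJu : J u = 1 := by rw [hJ]; dsimp only; rw [if_pos hu]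
      rw [hJu, one_mul, mul_one]
      obtain ⟨i, hi⟩ := hcon (rep u) (rep_coprime u) hu
      have hki : ((1 + Real.cos (θ u i)) / 2) ^ M ≤ ρ ^ M := by
        apply pow_le_pow_left₀
        · have := Real.neg_one_le_cos (θ u i)
          linarith
        · have := cos_le_of_far ((rep u * k i : ℝ) / m - y i) ε' hε'0.le
            (fun z => le_trans (min_le_left _ _) (hi z))
          rw [hρ, hθ]
          dsimp only
          linarith
      rw [hP]
      dsimp only
      rw [← Finset.mul_prod_erase Finset.univ _ (Finset.mem_univ i)]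
      calc ((1 + Real.cos (θ u i)) / 2) ^ M * ∏ x ∈ Finset.univ.erase i, ((1 + Real.cos (θ u x)) / 2) ^ M
          ≤ ρ ^ M * 1 := by
            apply mul_le_mul hki _ (Finset.prod_nonneg (fun x _ => kernel_nonneg M _))
              (pow_nonneg hρ0 M)
            apply Finset.prod_le_one (fun x _ => kernel_nonneg M _) (fun x _ => kernel_le_one M _)
        _ = ρ ^ M := mul_one _
    · have hJu : J u = 0 := by rw [hJ]; dsimp only; rw [if_neg hu]
      rw [hJu]; simp
  -- expansion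
  set A : (Fin r → ℕ) → ℂ := fun p => ∑ u, (J u : ℂ) *
    exp ((∑ i, (((p i : ℤ) - (M : ℤ) : ℤ) : ℂ) * θ u i) * I) with hA
  have h2 : ((∑ u, J u * P u : ℝ) : ℂ)
      = ∑ p ∈ Fintype.piFinset (fun _ : Fin r => range (2 * M + 1)),
        ((∏ i, kc M (p i) : ℝ) : ℂ) * A p := by
    rw [Complex.ofReal_sum]
    have : ∀ u, ((J u * P u : ℝ) : ℂ) = ∑ p ∈ Fintype.piFinset (fun _ : Fin r => range (2 * M + 1)),
        ((∏ i, kc M (p i) : ℝ) : ℂ) * ((J u : ℂ) *
          exp ((∑ i, (((p i : ℤ) - (M : ℤ) : ℤ) : ℂ) * θ u i) * I)) := by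
      intro u
      rw [Complex.ofReal_mul, hP]
      dsimp only
      rw [prod_kernel_expand, Finset.mul_sum]
      refine Finset.sum_congr rfl (fun p _ => ?_)
      ring
    simp_rw [this]
    rw [Finset.sum_comm]
    refine Finset.sum_congr rfl (fun p _ => ?_)
    rw [hA, Finset.mul_sum]
  set p0 : Fin r → ℕ := fun _ => M with hp0
  have hp0mem : p0 ∈ Fintype.piFinset (fun _ : Fin r => range (2 * M + 1)) := by
    rw [Fintype.mem_piFinset]
    intro i
    rw [Finset.mem_range, hp0]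
    dsimp only
    omega
  have hA0 : A p0 = (W : ℂ) := by
    rw [hA, hW, Complex.ofReal_sum]
    dsimp only
    refine Finset.sum_congr rfl (fun u _ => ?_)
    simp [hp0]
  have hAp : ∀ p ∈ (Fintype.piFinset (fun _ : Fin r => range (2 * M + 1))).erase p0,
      (C : ℝ) * ‖A p‖ ≤ (Nat.totient m : ℝ) := by
    intro p hp
    rw [Finset.mem_erase, Fintype.mem_piFinset] at hp
    obtain ⟨hpne, hpr⟩ := hp
    set ν : Fin r → ℤ := fun i => (p i : ℤ) - (M : ℤ) with hν
    have hν0 : ν ≠ 0 := by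
      intro h0
      apply hpne
      funext i
      have := congrFun h0 i
      rw [hν] at this
      simp only [Pi.zero_apply] at this
      rw [hp0]
      dsimp only
      omega
    have hνM : ∀ i, |ν i| ≤ M := by
      intro i
      have := Finset.mem_range.mp (hpr i)
      rw [hν, abs_le]
      dsimp only
      constructor <;> omega
    have hb := unit_sum_ind_bound q hq hqm s C N1 hN1 (∑ i, ν i * k i) (hfar ν hν0 hνM)
    have e : A p = exp (-(2 * Real.pi * I * (∑ i, (ν i : ℂ) * y i)))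
        * ∑ u : (ZMod m)ˣ, (if (q : ℤ) ∣ rep u - s then (1 : ℂ) else 0)
        * exp (2 * Real.pi * I * (((∑ i, ν i * k i : ℤ) : ℂ) * rep u / m)) := by
      rw [hA, Finset.mul_sum]
      dsimp only
      refine Finset.sum_congr rfl (fun u _ => ?_)
      have ej : (J u : ℂ) = (if (q : ℤ) ∣ rep u - s then (1 : ℂ) else 0) := by
        rw [hJ]; dsimp only; split_ifs <;> simp
      rw [ej]
      rw [mul_left_comm, ← exp_add]
      congr 2
      rw [hθ]
      dsimp only
      push_cast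
      rw [Finset.sum_mul, Finset.sum_mul, Finset.mul_sum, Finset.sum_div, Finset.mul_sum,
        ← Finset.sum_neg_distrib, ← Finset.sum_add_distrib]
      refine Finset.sum_congr rfl (fun i _ => ?_)
      rw [hν]
      push_cast
      ring
    rw [e, norm_mul]
    have hn1 : ‖exp (-(2 * Real.pi * I * (∑ i, (ν i : ℂ) * y i)))‖ = 1 := by
      have : -(2 * Real.pi * I * (∑ i, (ν i : ℂ) * y i))
          = ((-(2 * Real.pi * (∑ i, (ν i : ℝ) * y i)) : ℝ) : ℂ) * I := by
        push_cast; ring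
      rw [this, Complex.norm_exp_ofReal_mul_I]
    rw [hn1, one_mul]
    exact hb
  have hCpos : (0 : ℝ) < C := lt_trans (by positivity) hC
  have h3 : (C : ℝ) * (kc M M ^ r * W - ∑ u, J u * P u) ≤ (Nat.totient m : ℝ) := by
    rw [← Finset.add_sum_erase _ _ hp0mem, hA0] at h2
    have hprod : (∏ i : Fin r, kc M (p0 i)) = kc M M ^ r := by simp [hp0]
    rw [hprod] at h2
    have h4 : ((kc M M ^ r * W - ∑ u, J u * P u : ℝ) : ℂ)
        = -∑ p ∈ (Fintype.piFinset (fun _ : Fin r => range (2 * M + 1))).erase p0,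
        ((∏ i, kc M (p i) : ℝ) : ℂ) * A p := by
      rw [Complex.ofReal_sub, h2, Complex.ofReal_mul]
      ring
    have h5 : kc M M ^ r * W - ∑ u, J u * P u
        ≤ ∑ p ∈ (Fintype.piFinset (fun _ : Fin r => range (2 * M + 1))).erase p0,
          (∏ i, kc M (p i)) * ‖A p‖ := by
      calc kc M M ^ r * W - ∑ u, J u * P u
          ≤ |kc M M ^ r * W - ∑ u, J u * P u| := le_abs_self _
        _ = ‖((kc M M ^ r * W - ∑ u, J u * P u : ℝ) : ℂ)‖ := (Complex.norm_real _).symm
        _ = ‖∑ p ∈ (Fintype.piFinset (fun _ : Fin r => range (2 * M + 1))).erase p0,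
          ((∏ i, kc M (p i) : ℝ) : ℂ) * A p‖ := by rw [h4, norm_neg]
        _ ≤ ∑ p ∈ (Fintype.piFinset (fun _ : Fin r => range (2 * M + 1))).erase p0,
          ‖((∏ i, kc M (p i) : ℝ) : ℂ) * A p‖ := norm_sum_le _ _
        _ = _ := by
          refine Finset.sum_congr rfl (fun p _ => ?_)
          rw [norm_mul, Complex.norm_real, Real.norm_of_nonneg]
          exact Finset.prod_nonneg (fun i _ => kc_nonneg _ _)
    calc (C : ℝ) * (kc M M ^ r * W - ∑ u, J u * P u)
        ≤ C * ∑ p ∈ (Fintype.piFinset (fun _ : Fin r => range (2 * M + 1))).erase p0,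
          (∏ i, kc M (p i)) * ‖A p‖ := by gcongr
      _ = ∑ p ∈ (Fintype.piFinset (fun _ : Fin r => range (2 * M + 1))).erase p0,
          (∏ i, kc M (p i)) * (C * ‖A p‖) := by
          rw [Finset.mul_sum]
          refine Finset.sum_congr rfl (fun p _ => ?_)
          ring
      _ ≤ ∑ p ∈ (Fintype.piFinset (fun _ : Fin r => range (2 * M + 1))).erase p0,
          (∏ i, kc M (p i)) * (Nat.totient m : ℝ) := by
          refine Finset.sum_le_sum (fun p hp => ?_)
          exact mul_le_mul_of_nonneg_left (hAp p hp) (Finset.prod_nonneg (fun i _ => kc_nonneg _ _))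
      _ ≤ ∑ p ∈ (Fintype.piFinset (fun _ : Fin r => range (2 * M + 1))),
          (∏ i, kc M (p i)) * (Nat.totient m : ℝ) := by
          apply Finset.sum_le_sum_of_subset_of_nonneg (Finset.erase_subset _ _)
          intro p _ _
          exact mul_nonneg (Finset.prod_nonneg (fun i _ => kc_nonneg _ _)) (Nat.cast_nonneg _)
      _ = (Nat.totient m : ℝ) := by
          rw [← Finset.sum_mul, sum_prod_kc, one_mul]
  have h6 := unit_count q hq hqm s hs
  have hφ : (0 : ℝ) < Nat.totient m := by exact_mod_cast Nat.totient_pos.mpr hm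
  have hW0 : 0 < W := by
    by_contra hle
    push Not at hle
    have hq' : (0 : ℝ) < q := by exact_mod_cast hq
    have : (q : ℝ) * W ≤ 0 := by nlinarith
    have h6' : (Nat.totient m : ℝ) ≤ q * W := h6
    linarith
  have h7 : (C : ℝ) * (δ * W) ≤ q * W := by
    have h6' : (Nat.totient m : ℝ) ≤ q * W := h6
    calc (C : ℝ) * (δ * W) = C * (kc M M ^ r * W - ρ ^ M * W) := by rw [hδ]; ring
      _ ≤ C * (kc M M ^ r * W - ∑ u, J u * P u) := by gcongr
      _ ≤ Nat.totient m := h3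
      _ ≤ q * W := h6'
  have h8 : (C : ℝ) * δ ≤ q := by
    have : (C : ℝ) * δ * W ≤ q * W := by linarith [h7, mul_assoc (C : ℝ) δ W]
    exact le_of_mul_le_mul_right this hW0
  rw [div_lt_iff₀ hδ0] at hC
  linarith

end Pool.Agent.FermatFam
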