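import Mathlib

/-!
# Families of characters of Fermat varieties

A character of (a product of) Fermat varieties of degree `m` is a vector `a` of residues modulo
`m`. A family of characters, in all degrees `m` divisible by a fixed number `q`, is given by an
integral matrix `B` and an integral vector `c`: its members are the vectors `B k + (m/q) c`.
-/

set_option autoImplicit false

namespace Pool.Agent.FermatFam

/-- A family of characters of length `ℓ`: an integral matrix `B` with `r` columns, a number `q`
and an integral vector `c`. -/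
structure Family (ℓ : ℕ) where
  /-- the number of parameters -/
  r : ℕ
  /-- the matrix -/
  B : Fin ℓ → Fin r → ℤ
  /-- the torsion denominator -/
  q : ℕ
  /-- the torsion vector -/
  c : Fin ℓ → ℤ

namespace Family

variable {ℓ : ℕ}

/-- The vector `a` modulo `m` is a member of the family: `q` divides `m` and
`a = B k + (m/q) c` modulo `m` for some integral vector `k`. -/
def Mem (A : Family ℓ) (m : ℕ) (a : Fin ℓ → ℤ) : Prop :=
  A.q ∣ m ∧ ∃ k : Fin A.r → ℤ, ∀ i,
    (m : ℤ) ∣ a i - (∑ j, A.B i j * k j + ((m / A.q : ℕ) : ℤ) * A.c i)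

/-- The real point `B y + s c / q` with real parameters `y`. -/
noncomputable def point (A : Family ℓ) (y : Fin A.r → ℝ) (s : ℤ) (i : Fin ℓ) : ℝ :=
  ∑ j, (A.B i j : ℝ) * y j + (s * A.c i : ℝ) / A.q

/-- For all real parameters `y` and all integers `s` prime to `q`, the sum of the fractional parts
of the coordinates of `B y + s c / q` is at least `w`, provided that no coordinate is an
integer. -/
def Good (A : Family ℓ) (w : ℝ) : Prop :=
  ∀ (y : Fin A.r → ℝ) (s : ℤ), IsCoprime s (A.q : ℤ) → (∀ i, Int.fract (A.point y s i) ≠ 0) →
    w ≤ ∑ i, Int.fract (A.point y s i)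

/-- The linear relation `ρ` holds identically on the family. -/
def Rel (A : Family ℓ) (ρ : Fin ℓ → ℤ) : Prop :=
  (∀ j, ∑ i, ρ i * A.B i j = 0) ∧ (A.q : ℤ) ∣ ∑ i, ρ i * A.c i

end Family

end Pool.Agent.FermatFam
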