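import Pool.Agent.FermatFam.Main

/-!
# Characters of products of Fermat varieties
-/

set_option autoImplicit false

open Finset

namespace Pool.Agent.FermatFam

/-- Members of a family, multiplied by `t/m`, are points of the family up to integers. -/
theorem mem_point {ℓ : ℕ} (A : Family ℓ) (hq : 0 < A.q) (m : ℕ) (hm : 0 < m) (a : Fin ℓ → ℤ)
    (ha : A.Mem m a) : ∃ y : ℤ → Fin A.r → ℝ, ∀ t : ℤ, ∀ i, ∃ z : ℤ,
      (t * a i : ℝ) / m = A.point (y t) t i + z := by
  obtain ⟨hqm, k, hk⟩ := ha
  refine ⟨fun t j => (t * k j : ℝ) / m, fun t i => ?_⟩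
  obtain ⟨e, he⟩ := hk i
  have hmR : (m : ℝ) ≠ 0 := by exact_mod_cast hm.ne'
  have hqR : (A.q : ℝ) ≠ 0 := by exact_mod_cast hq.ne'
  obtain ⟨m', hm'⟩ := hqm
  have hmq : m / A.q = m' := by rw [hm']; exact Nat.mul_div_cancel_left m' hq
  rw [hmq] at he
  have hm'R : (m' : ℝ) ≠ 0 := by
    intro h0; apply hmR; rw [hm']; push_cast; rw [h0]; ring
  have hmR' : (m : ℝ) = A.q * m' := by rw [hm']; push_cast; ring
  refine ⟨t * e, ?_⟩
  have h1 : (a i : ℝ) = ∑ j, (A.B i j : ℝ) * k j + m' * A.c i + m * e := by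
    have h2 : a i = (∑ j, A.B i j * k j + (m' : ℤ) * A.c i) + m * e := by linarith
    rw [h2]; push_cast; ring
  unfold Family.point
  have h6 : ∑ j, (A.B i j : ℝ) * ((t * k j : ℝ) / m) = t * (∑ j, (A.B i j : ℝ) * k j) / m := by
    rw [Finset.mul_sum, Finset.sum_div]
    refine Finset.sum_congr rfl (fun j _ => ?_)
    ring
  rw [h6]
  have h7 : (t : ℝ) * A.c i / A.q = t * (m' * A.c i) / m := by
    rw [hmR']; field_simp
  rw [h7, h1]
  push_cast
  field_simp

/-- The open set of all vectors without integral coordinates whose fractional parts have sum less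
than `w`. -/
def lowSet (ℓ : ℕ) (w : ℝ) : Set (Fin ℓ → ℝ) :=
  {x | (∀ i, Int.fract (x i) ≠ 0) ∧ ∑ i, Int.fract (x i) < w}

theorem lowSet_open (ℓ : ℕ) (w : ℝ) : OpenPeriodic (lowSet ℓ w) := by
  rintro x ⟨hx, hw⟩
  obtain ⟨ε0, hε0, hle⟩ := exists_pos_le (fun i => min (Int.fract (x i)) (1 - Int.fract (x i)))
    (fun i => lt_min (lt_of_le_of_ne (Int.fract_nonneg _) (Ne.symm (hx i)))
      (by linarith [Int.fract_lt_one (x i)]))
  obtain ⟨ε1, hε1, hp⟩ := perturb x hx w hw
  refine ⟨min ε0 ε1, lt_min hε0 hε1, fun η hη z => ⟨fun i => ?_, ?_⟩⟩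
  · have h2 := abs_lt.mp (lt_of_lt_of_le (hη i) (min_le_left _ _))
    have h3 := hle i
    have h4 := le_trans h3 (min_le_left _ _)
    have h5 := le_trans h3 (min_le_right _ _)
    have h6 : Int.fract (x i + η i + z i) = Int.fract (x i) + η i := by
      rw [Int.fract_add_intCast, Int.fract_eq_iff]
      refine ⟨by linarith, by linarith, ⌊x i⌋, ?_⟩
      have := Int.floor_add_fract (x i)
      linarith
    rw [h6]
    have h7 : 0 < Int.fract (x i) + η i := by linarith
    exact h7.ne'
  · exact hp η (fun i => lt_of_lt_of_le (hη i) (min_le_right _ _)) z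

/-- The characters of degree `m` of a product of Fermat varieties. The blocks are the fibres
of `π`. -/
def IsCharacter {ℓ b : ℕ} (π : Fin ℓ → Fin b) (m : ℕ) (a : Fin ℓ → ℤ) : Prop :=
  (∀ i, ¬ (m : ℤ) ∣ a i) ∧ ∀ β, (m : ℤ) ∣ ∑ i with π i = β, a i

theorem fermat_families (ℓ b : ℕ) (π : Fin ℓ → Fin b) (w : ℝ) :
    ∃ F : Set (Family ℓ), F.Finite ∧
      (∀ A ∈ F, 0 < A.q ∧ (∀ β, (∀ j, ∑ i with π i = β, A.B i j = 0) ∧
        (A.q : ℤ) ∣ ∑ i with π i = β, A.c i) ∧ A.Good w) ∧
      ∀ m : ℕ, 0 < m → ∀ a : Fin ℓ → ℤ, IsCharacter π m a →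
        ((∀ t : ℤ, IsCoprime t (m : ℤ) → w ≤ ∑ i, Int.fract ((t * a i : ℝ) / m)) ↔
          ∃ A ∈ F, A.Mem m a) := by
  classical
  -- representatives of the blocks
  let ρ : Fin ℓ → Fin ℓ := fun j => Classical.choose (⟨j, rfl⟩ : ∃ i, π i = π j)
  have hρ1 : ∀ j, π (ρ j) = π j := fun j => Classical.choose_spec (⟨j, rfl⟩ : ∃ i, π i = π j)
  have hρ2 : ∀ j j', π j = π j' → ρ j = ρ j' := by
    intro j j' h
    show Classical.choose (⟨j, rfl⟩ : ∃ i, π i = π j) = Classical.choose (⟨j', rfl⟩ : ∃ i, π i = π j')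
    congr 1
    funext i
    rw [h]
  let B0 : Fin ℓ → Fin ℓ → ℤ := fun i j => (if i = j then 1 else 0) - (if i = ρ j then 1 else 0)
  obtain ⟨F, hfin, hF, hcov⟩ := main_families (lowSet ℓ w) (lowSet_open ℓ w) ℓ B0 1
    (fun _ => 0) one_pos
  have hrel : ∀ β : Fin b, (⟨ℓ, B0, 1, fun _ => 0⟩ : Family ℓ).Rel (fun i => if π i = β then 1 else 0) := by
    intro β
    constructor
    · intro j
      show ∑ i, (if π i = β then (1 : ℤ) else 0) * ((if i = j then 1 else 0) - (if i = ρ j then 1 else 0)) = 0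
      have h1 : ∀ i, (if π i = β then (1 : ℤ) else 0) * ((if i = j then 1 else 0) - (if i = ρ j then 1 else 0))
          = (if i = j then (if π j = β then 1 else 0) else 0)
            - (if i = ρ j then (if π (ρ j) = β then 1 else 0) else 0) := by
        intro i
        split_ifs <;> simp_all
      rw [Finset.sum_congr rfl (fun i _ => h1 i), Finset.sum_sub_distrib, Finset.sum_ite_eq',
        Finset.sum_ite_eq', hρ1]
      simp
    · simp
  refine ⟨F, hfin, fun A hA => ?_, fun m hm a ha => ⟨fun h => ?_, ?_⟩⟩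
  · obtain ⟨h1, h2, h3⟩ := hF A hA
    refine ⟨h1, fun β => ?_, ?_⟩
    · obtain ⟨h4, h5⟩ := h3 _ (hrel β)
      constructor
      · intro j
        rw [← h4 j, Finset.sum_filter]
        exact Finset.sum_congr rfl (fun i _ => by by_cases h : π i = β <;> simp [h])
      · have e : ∑ i with π i = β, A.c i = ∑ i, (if π i = β then (1 : ℤ) else 0) * A.c i := by
          rw [Finset.sum_filter]
          exact Finset.sum_congr rfl (fun i _ => by by_cases h : π i = β <;> simp [h])
        rw [e]; exact h5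
    · intro y s hs hx
      have := h2 y s hs
      by_contra hlt
      push Not at hlt
      exact this ⟨hx, hlt⟩
  · apply hcov m hm a
    · refine ⟨one_dvd _, a, fun i => ?_⟩
      show (m : ℤ) ∣ a i - (∑ j, ((if i = j then (1 : ℤ) else 0) - (if i = ρ j then 1 else 0)) * a j
        + ((m / 1 : ℕ) : ℤ) * 0)
      have h1 : ∀ j, ((if i = j then (1 : ℤ) else 0) - (if i = ρ j then 1 else 0)) * a j
          = (if i = j then a j else 0) - (if i = ρ j then a j else 0) := by
        intro j; split_ifs <;> ring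
      rw [Finset.sum_congr rfl (fun j _ => h1 j), Finset.sum_sub_distrib, Finset.sum_ite_eq,
        if_pos (Finset.mem_univ i), mul_zero, add_zero, sub_sub_cancel]
      by_cases hi : i = ρ i
      · have h2 : ∑ j, (if i = ρ j then a j else 0) = ∑ j with π j = π i, a j := by
          rw [Finset.sum_filter]
          refine Finset.sum_congr rfl (fun j _ => ?_)
          have : i = ρ j ↔ π j = π i := by
            constructor
            · intro h; rw [h, hρ1]
            · intro h; rw [hρ2 j i h]; exact hi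
          simp only [this]
        rw [h2]
        exact ha.2 (π i)
      · have h2 : ∑ j, (if i = ρ j then a j else 0) = 0 := by
          apply Finset.sum_eq_zero
          intro j _
          rw [if_neg]
          intro h
          apply hi
          have : π j = π i := by rw [h, hρ1]
          rw [← hρ2 j i this]; exact h
        rw [h2]; exact dvd_zero _
    · intro t ht hmem
      exact absurd hmem.2 (not_lt.mpr (h t ht))
  · rintro ⟨A, hA, hAm⟩ t ht
    obtain ⟨h1, h2, _⟩ := hF A hA
    obtain ⟨y, hy⟩ := mem_point A h1 m hm a hAm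
    choose z hz using hy t
    have hq : IsCoprime t (A.q : ℤ) := by
      obtain ⟨m', hm'⟩ := hAm.1
      apply IsCoprime.of_isCoprime_of_dvd_right ht
      rw [hm']; push_cast; exact Dvd.intro _ rfl
    have hfr : ∀ i, Int.fract ((t * a i : ℝ) / m) = Int.fract (A.point (y t) t i) := by
      intro i
      rw [hz i, Int.fract_add_intCast]
    have hne : ∀ i, Int.fract (A.point (y t) t i) ≠ 0 := by
      intro i h0
      rw [← hfr i] at h0
      have hmR : (m : ℝ) ≠ 0 := by exact_mod_cast hm.ne'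
      have h3 : ∃ z : ℤ, (z : ℝ) = (t * a i : ℝ) / m := by
        refine ⟨⌊(t * a i : ℝ) / m⌋, ?_⟩
        have := Int.floor_add_fract ((t * a i : ℝ) / m)
        rw [h0] at this
        linarith
      obtain ⟨z', hz'⟩ := h3
      have h4 : (m : ℤ) ∣ t * a i := by
        refine ⟨z', ?_⟩
        have : (t * a i : ℝ) = m * z' := by rw [hz']; field_simp
        exact_mod_cast this
      exact ha.1 i (ht.symm.dvd_of_dvd_mul_left h4)
    by_contra hlt
    push Not at hlt
    apply h2 (y t) t hq
    refine ⟨hne, ?_⟩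
    calc ∑ i, Int.fract (A.point (y t) t i) = ∑ i, Int.fract ((t * a i : ℝ) / m) :=
          Finset.sum_congr rfl (fun i _ => (hfr i).symm)
      _ < w := hlt

end Pool.Agent.FermatFam
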