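import Mathlib

/-!
# The kernel `((1 + cos θ)/2)^M`
-/

set_option autoImplicit false

open Finset Complex

namespace Pool.Agent.FermatFam

/-- The coefficients of the kernel. -/
noncomputable def kc (M j : ℕ) : ℝ := (Nat.choose (2 * M) j : ℝ) / 4 ^ M

theorem kc_nonneg (M j : ℕ) : 0 ≤ kc M j := by unfold kc; positivity

theorem sum_kc (M : ℕ) : ∑ j ∈ range (2 * M + 1), kc M j = 1 := by
  unfold kc
  rw [← Finset.sum_div]
  have : ∑ j ∈ range (2 * M + 1), (Nat.choose (2 * M) j : ℝ) = 4 ^ M := by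
    have := Nat.sum_range_choose (2 * M)
    have h2 : ((∑ m ∈ range (2 * M + 1), (2 * M).choose m : ℕ) : ℝ) = ((2 ^ (2 * M) : ℕ) : ℝ) := by
      rw [this]
    push_cast at h2
    rw [h2, pow_mul]
    norm_num
  rw [this]
  field_simp

theorem kernel_expand (M : ℕ) (θ : ℝ) :
    (((((1 + Real.cos θ) / 2) ^ M : ℝ)) : ℂ)
      = ∑ j ∈ range (2 * M + 1), (kc M j : ℂ) * exp (((j : ℤ) - (M : ℤ) : ℤ) * (θ * I)) := by
  have h1 : (((1 + Real.cos θ) / 2 : ℝ) : ℂ)
      = exp (-(θ * I)) * ((exp (θ * I) + 1) ^ 2) / 4 := by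
    push_cast
    rw [Complex.cos]
    have e : exp (θ * I) * exp (-(θ * I)) = 1 := by rw [← exp_add]; simp
    have e2 : exp (-(θ : ℂ) * I) = exp (-(θ * I)) := by congr 1; ring
    rw [e2]
    linear_combination (-(exp (θ * I) + 2) / 4) * e
  push_cast
  have h1' : (1 + Complex.cos θ) / 2 = exp (-(θ * I)) * ((exp (θ * I) + 1) ^ 2) / 4 := by
    rw [← h1]; push_cast; rfl
  rw [h1', div_pow, mul_pow, ← pow_mul, add_pow, Finset.mul_sum, Finset.sum_div]
  refine Finset.sum_congr rfl (fun j _ => ?_)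
  unfold kc
  have e3 : exp ((((j : ℤ) - (M : ℤ) : ℤ) : ℂ) * (θ * I)) = exp (-(θ * I)) ^ M * exp (θ * I) ^ j := by
    rw [← exp_nat_mul, ← exp_nat_mul, ← exp_add]
    congr 1
    push_cast
    ring
  have e3' : exp (((j : ℂ) - (M : ℂ)) * (θ * I)) = exp (-(θ * I)) ^ M * exp (θ * I) ^ j := by
    rw [← e3]; push_cast; rfl
  rw [e3']
  push_cast
  ring

theorem kernel_nonneg (M : ℕ) (θ : ℝ) : 0 ≤ ((1 + Real.cos θ) / 2) ^ M := by
  have := Real.neg_one_le_cos θ
  apply pow_nonneg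
  linarith

theorem kernel_le_one (M : ℕ) (θ : ℝ) : ((1 + Real.cos θ) / 2) ^ M ≤ 1 := by
  have h1 := Real.neg_one_le_cos θ
  have h2 := Real.cos_le_one θ
  apply pow_le_one₀ <;> linarith

/-- The central coefficient dominates every geometric sequence. -/
theorem exists_M (r : ℕ) (ρ : ℝ) (h0 : 0 ≤ ρ) (h1 : ρ < 1) : ∃ M : ℕ, ρ ^ M < kc M M ^ r := by
  have ht := tendsto_pow_const_mul_const_pow_of_abs_lt_one r (r := ρ) (by rw [abs_of_nonneg h0]; exact h1)
  have hev := (ht.eventually (gt_mem_nhds (show (0 : ℝ) < (1 / 3) ^ r by positivity)))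
  obtain ⟨M, hM, hM1⟩ := (hev.and (Filter.eventually_ge_atTop 1)).exists
  refine ⟨M, ?_⟩
  have hMpos : (0 : ℝ) < M := by exact_mod_cast hM1
  have hc : 1 / (3 * (M : ℝ)) ≤ kc M M := by
    unfold kc
    have h4 := Nat.four_pow_le_two_mul_self_mul_centralBinom M (by omega)
    have h4' : (4 : ℝ) ^ M ≤ 2 * M * (Nat.choose (2 * M) M : ℝ) := by
      have := h4
      rw [Nat.centralBinom] at this
      exact_mod_cast this
    rw [div_le_div_iff₀ (by positivity) (by positivity)]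
    have : (0 : ℝ) ≤ (Nat.choose (2 * M) M : ℝ) := by positivity
    nlinarith
  have hM' : ρ ^ M < (1 / (3 * (M : ℝ))) ^ r := by
    have e : (1 / (3 * (M : ℝ))) ^ r = (1 / 3) ^ r / (M : ℝ) ^ r := by
      rw [one_div, mul_inv, mul_pow, one_div, inv_pow, inv_pow, div_eq_mul_inv]
    rw [e, lt_div_iff₀ (by positivity), mul_comm]
    exact hM
  calc ρ ^ M < (1 / (3 * (M : ℝ))) ^ r := hM'
    _ ≤ kc M M ^ r := by gcongr

end Pool.Agent.FermatFam
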