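import Mathlib

/-!
# Solving one linear relation of bounded order
-/

set_option autoImplicit false

open Finset

namespace Pool.Agent.FermatFam

/-- A primitive splitting of `ℤ^(r+1)` adapted to a nonzero linear form `μ`: there are a positive
`g`, vectors `w 1, ..., w r` and `v` such that every `k` is an integral combination of them, with
the coefficient of `v` equal to `μ(k)/g`. -/
theorem exists_split (r : ℕ) (μ : Fin (r + 1) → ℤ) (hμ : μ ≠ 0) :
    ∃ (g : ℕ) (w : Fin (r + 1) → Fin r → ℤ) (v : Fin (r + 1) → ℤ), 0 < g ∧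
      ∀ k : Fin (r + 1) → ℤ, ∃ (x : ℤ) (k' : Fin r → ℤ), ∑ i, μ i * k i = g * x ∧
        ∀ i, k i = ∑ j, w i j * k' j + v i * x := by
  classical
  let φ : (Fin (r + 1) → ℤ) →ₗ[ℤ] ℤ :=
    { toFun := fun k => ∑ i, μ i * k i
      map_add' := fun a b => by
        simp only [Pi.add_apply, mul_add, Finset.sum_add_distrib]
      map_smul' := fun c a => by
        simp only [Pi.smul_apply, smul_eq_mul, RingHom.id_apply, Finset.mul_sum]
        exact Finset.sum_congr rfl (fun i _ => by ring) }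
  have hφ : ∀ k, φ k = ∑ i, μ i * k i := fun k => rfl
  obtain ⟨g0, hg0⟩ := (IsPrincipalIdealRing.principal (LinearMap.range φ)).principal
  have hne : g0 ≠ 0 := by
    rintro rfl
    apply hμ
    funext i
    have h1 : φ (Pi.single i 1) ∈ LinearMap.range φ := ⟨_, rfl⟩
    rw [hg0] at h1
    have h2 : φ (Pi.single i 1) = 0 := by simpa using h1
    rw [hφ] at h2
    have h3 : ∑ x, μ x * (Pi.single i (1 : ℤ) : Fin (r + 1) → ℤ) x = μ i := by
      rw [Finset.sum_eq_single i]
      · simp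
      · intro b _ hb; simp [hb]
      · intro h; exact absurd (Finset.mem_univ i) h
    rw [h3] at h2
    simpa using h2
  -- a positive generator
  have hg : ∃ g : ℕ, 0 < g ∧ LinearMap.range φ = Submodule.span ℤ {(g : ℤ)} := by
    refine ⟨g0.natAbs, Int.natAbs_pos.mpr hne, ?_⟩
    rw [hg0]
    apply le_antisymm
    · rw [Submodule.span_singleton_le_iff_mem, Submodule.mem_span_singleton]
      exact ⟨Int.sign g0, by rw [smul_eq_mul]; exact Int.sign_mul_natAbs g0⟩
    · rw [Submodule.span_singleton_le_iff_mem, Submodule.mem_span_singleton]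
      exact ⟨Int.sign g0, by
        rw [smul_eq_mul]; exact Int.sign_mul_self_eq_natAbs g0⟩
  obtain ⟨g, hgpos, hgr⟩ := hg
  obtain ⟨v, hv⟩ : ∃ v, φ v = (g : ℤ) := by
    have : (g : ℤ) ∈ LinearMap.range φ := by
      rw [hgr]; exact Submodule.mem_span_singleton_self _
    exact this
  have hdiv : ∀ k, ∃ x : ℤ, φ k = g * x := by
    intro k
    have h1 : φ k ∈ LinearMap.range φ := ⟨k, rfl⟩
    rw [hgr, Submodule.mem_span_singleton] at h1
    obtain ⟨x, hx⟩ := h1
    exact ⟨x, by rw [← hx, smul_eq_mul]; ring⟩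
  have hrank : Module.finrank ℤ (LinearMap.ker φ) = r := by
    have e : ((LinearMap.ker φ) × ℤ) ≃ₗ[ℤ] (Fin (r + 1) → ℤ) := by
      refine LinearEquiv.ofBijective
        ((LinearMap.ker φ).subtype.coprod (LinearMap.toSpanSingleton ℤ _ v)) ⟨?_, ?_⟩
      · rw [injective_iff_map_eq_zero]
        rintro ⟨⟨a, ha⟩, x⟩ h
        simp only [LinearMap.coprod_apply, Submodule.subtype_apply,
          LinearMap.toSpanSingleton_apply] at h
        have h1 : φ (a + x • v) = 0 := by rw [h, map_zero]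
        rw [map_add, map_smul, hv, LinearMap.mem_ker.mp ha, smul_eq_mul, zero_add] at h1
        have hx : x = 0 := by
          rcases mul_eq_zero.mp h1 with h | h
          · exact h
          · exfalso; omega
        subst hx
        simp only [zero_smul, add_zero] at h
        simp [h]
      · intro k
        obtain ⟨x, hx⟩ := hdiv k
        refine ⟨(⟨k - x • v, ?_⟩, x), ?_⟩
        · rw [LinearMap.mem_ker, map_sub, map_smul, hv, hx, smul_eq_mul]; ring
        · simp
    have h1 := LinearEquiv.finrank_eq e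
    rw [Module.finrank_prod, Module.finrank_fin_fun, Module.finrank_self] at h1
    omega
  let b := Module.finBasisOfFinrankEq ℤ (LinearMap.ker φ) hrank
  refine ⟨g, fun i j => (b j : Fin (r + 1) → ℤ) i, v, hgpos, fun k => ?_⟩
  obtain ⟨x, hx⟩ := hdiv k
  have hmem : k - x • v ∈ LinearMap.ker φ := by
    rw [LinearMap.mem_ker, map_sub, map_smul, hv, hx, smul_eq_mul]; ring
  refine ⟨x, fun j => b.repr ⟨k - x • v, hmem⟩ j, by rw [← hφ]; exact hx, fun i => ?_⟩
  have h1 := b.sum_repr ⟨k - x • v, hmem⟩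
  have h2 : (∑ j, (b.repr ⟨k - x • v, hmem⟩ j) • (b j : Fin (r + 1) → ℤ)) = k - x • v := by
    have := congrArg (LinearMap.ker φ).subtype h1
    rw [map_sum] at this
    simpa only [map_smul, Submodule.subtype_apply] using this
  have h3 := congrFun h2 i
  simp only [Finset.sum_apply, Pi.smul_apply, smul_eq_mul, Pi.sub_apply] at h3
  have h4 : ∑ j, (b j : Fin (r + 1) → ℤ) i * (b.repr ⟨k - x • v, hmem⟩) j = k i - x * v i := by
    rw [← h3]
    exact Finset.sum_congr rfl (fun j _ => by ring)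
  rw [h4]
  ring

/-- Solutions of `u * (μ · k) ≡ 0 mod m` with bounded `u` lie in finitely many families with one
parameter less. -/
theorem reduce (r : ℕ) (μ : Fin (r + 1) → ℤ) (hμ : μ ≠ 0) (U : ℕ) :
    ∃ S : Set ((Fin (r + 1) → Fin r → ℤ) × (Fin (r + 1) → ℤ) × ℕ), S.Finite ∧
      (∀ x ∈ S, 0 < x.2.2) ∧
      ∀ m : ℕ, 0 < m → ∀ k : Fin (r + 1) → ℤ,
        (∃ u : ℕ, 0 < u ∧ u ≤ U ∧ (m : ℤ) ∣ u * ∑ i, μ i * k i) →
        ∃ x ∈ S, x.2.2 ∣ m ∧ ∃ k' : Fin r → ℤ, ∀ i,
          (m : ℤ) ∣ k i - (∑ j, x.1 i j * k' j + ((m / x.2.2 : ℕ) : ℤ) * x.2.1 i) := by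
  classical
  obtain ⟨g, w, v, hg, hsplit⟩ := exists_split r μ hμ
  -- the finite set
  let F : ℕ × ℕ → (Fin (r + 1) → Fin r → ℤ) × (Fin (r + 1) → ℤ) × ℕ :=
    fun p => (w, (fun i => (p.2 : ℤ) * v i), p.1)
  refine ⟨F '' ((Set.Icc 1 (U * g)) ×ˢ (Set.Iio (U * g + 1))), ?_, ?_, ?_⟩
  · exact ((Set.finite_Icc 1 (U * g)).prod (Set.finite_Iio (U * g + 1))).image F
  · rintro x ⟨⟨d, c⟩, ⟨hd, _⟩, rfl⟩
    exact hd.1
  · intro m hm k ⟨u, hu, huU, hdvd⟩
    obtain ⟨x, k', hx, hk⟩ := hsplit k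
    rw [hx] at hdvd
    -- d = gcd(m, u g)
    set d := Nat.gcd m (u * g) with hd
    have hdpos : 0 < d := Nat.gcd_pos_of_pos_left _ hm
    have hdm : d ∣ m := Nat.gcd_dvd_left _ _
    have hdug : d ≤ u * g := Nat.le_of_dvd (Nat.mul_pos hu hg) (Nat.gcd_dvd_right _ _)
    obtain ⟨m', hm'⟩ := hdm
    have hmd : m / d = m' := by rw [hm']; exact Nat.mul_div_cancel_left m' hdpos
    have hm'pos : 0 < m' := by
      rcases Nat.eq_zero_or_pos m' with h | h
      · rw [h] at hm'; omega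
      · exact h
    have hx' : (m' : ℤ) ∣ x := by
      obtain ⟨e, he⟩ : d ∣ u * g := Nat.gcd_dvd_right _ _
      have hcop : Nat.Coprime m' e := by
        have := Nat.coprime_div_gcd_div_gcd (m := m) (n := u * g) (by rw [← hd]; exact hdpos)
        rw [← hd] at this
        rwa [hmd, he, Nat.mul_div_cancel_left e hdpos] at this
      have h1 : (m' : ℤ) ∣ e * x := by
        have h2 : (m : ℤ) ∣ (d : ℤ) * (e * x) := by
          have : (u : ℤ) * (g * x) = (d : ℤ) * (e * x) := by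
            have h3 : (u : ℤ) * g = d * e := by exact_mod_cast he
            rw [← mul_assoc, h3, mul_assoc]
          rwa [this] at hdvd
        rw [hm'] at h2
        push_cast at h2
        exact Int.dvd_of_mul_dvd_mul_left (by exact_mod_cast hdpos.ne') h2
      exact (Nat.isCoprime_iff_coprime.mpr hcop).dvd_of_dvd_mul_left h1
    obtain ⟨c, hc⟩ := hx'
    have hcmod : ∃ c0 : ℕ, c0 < d ∧ ∃ z : ℤ, c = c0 + d * z := by
      refine ⟨(c % (d : ℤ)).toNat, ?_, c / d, ?_⟩
      · have h1 : 0 ≤ c % (d : ℤ) := Int.emod_nonneg _ (by exact_mod_cast hdpos.ne')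
        have h2 : c % (d : ℤ) < d := Int.emod_lt_of_pos _ (by exact_mod_cast hdpos)
        omega
      · have h1 : 0 ≤ c % (d : ℤ) := Int.emod_nonneg _ (by exact_mod_cast hdpos.ne')
        rw [Int.toNat_of_nonneg h1]
        exact (Int.emod_add_mul_ediv c d).symm
    obtain ⟨c0, hc0, z, hz⟩ := hcmod
    refine ⟨F (d, c0), ⟨(d, c0), ⟨⟨hdpos, ?_⟩, ?_⟩, rfl⟩, ⟨m', hm'⟩, k', fun i => ?_⟩
    · exact hdug.trans (Nat.mul_le_mul_right g huU)
    · exact Set.mem_Iio.mpr (by
        have := hdug.trans (Nat.mul_le_mul_right g huU)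
        show c0 < U * g + 1
        omega)
    · show (m : ℤ) ∣ k i - (∑ j, w i j * k' j + ((m / d : ℕ) : ℤ) * ((c0 : ℤ) * v i))
      rw [hmd, hk i, hc, hz]
      refine ⟨z * v i, ?_⟩
      rw [hm']
      push_cast
      ring

end Pool.Agent.FermatFam
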