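import Pool.Agent.FermatFam.Defs
import Pool.Agent.FermatFam.Approx
import Pool.Agent.FermatFam.Reduce

/-!
# Finitely many families
-/

set_option autoImplicit false

open Finset

namespace Pool.Agent.FermatFam

theorem exists_pos_le {n : ℕ} (f : Fin n → ℝ) (hf : ∀ i, 0 < f i) : ∃ ε > 0, ∀ i, ε ≤ f i := by
  rcases isEmpty_or_nonempty (Fin n) with h | h
  · exact ⟨1, one_pos, fun i => (h.false i).elim⟩
  · obtain ⟨i0, hi0⟩ := Finite.exists_min f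
    exact ⟨f i0, hf i0, hi0⟩

/-- The sum of the fractional parts is locally constant up to the perturbation. -/
theorem perturb {ℓ : ℕ} (x : Fin ℓ → ℝ) (hx : ∀ i, Int.fract (x i) ≠ 0) (w : ℝ)
    (hw : ∑ i, Int.fract (x i) < w) :
    ∃ ε > 0, ∀ η : Fin ℓ → ℝ, (∀ i, |η i| < ε) → ∀ z : Fin ℓ → ℤ,
      ∑ i, Int.fract (x i + η i + z i) < w := by
  obtain ⟨ε0, hε0, hle⟩ := exists_pos_le (fun i => min (Int.fract (x i)) (1 - Int.fract (x i)))
    (fun i => lt_min (lt_of_le_of_ne (Int.fract_nonneg _) (Ne.symm (hx i)))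
      (by linarith [Int.fract_lt_one (x i)]))
  set κ := (w - ∑ i, Int.fract (x i)) / (ℓ + 1) with hκ
  have hκ0 : 0 < κ := by rw [hκ]; apply div_pos (by linarith) (by positivity)
  refine ⟨min ε0 κ, lt_min hε0 hκ0, fun η hη z => ?_⟩
  have h1 : ∀ i, Int.fract (x i + η i + z i) = Int.fract (x i) + η i := by
    intro i
    rw [Int.fract_add_intCast, Int.fract_eq_iff]
    have h2 := abs_lt.mp (lt_of_lt_of_le (hη i) (min_le_left _ _))
    have h3 := hle i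
    have h4 := le_trans h3 (min_le_left _ _)
    have h5 := le_trans h3 (min_le_right _ _)
    refine ⟨by linarith, by linarith, ⌊x i⌋, ?_⟩
    have := Int.floor_add_fract (x i)
    linarith
  rw [Finset.sum_congr rfl (fun i _ => h1 i), Finset.sum_add_distrib]
  have h6 : ∑ i, η i ≤ ∑ _i : Fin ℓ, κ := Finset.sum_le_sum (fun i _ =>
    le_trans (le_abs_self _) (le_trans (hη i).le (min_le_right _ _)))
  rw [Finset.sum_const, Finset.card_univ, Fintype.card_fin, nsmul_eq_mul] at h6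
  have h7 : (ℓ : ℝ) * κ < w - ∑ i, Int.fract (x i) := by
    rw [hκ, mul_div_assoc', div_lt_iff₀ (by positivity)]
    have : 0 < w - ∑ i, Int.fract (x i) := by linarith
    nlinarith
  linarith

/-- The set `U` contains, with every point, a neighbourhood of it and all its integral
translates. -/
def OpenPeriodic {ℓ : ℕ} (U : Set (Fin ℓ → ℝ)) : Prop :=
  ∀ x ∈ U, ∃ ε > 0, ∀ η : Fin ℓ → ℝ, (∀ i, |η i| < ε) → ∀ z : Fin ℓ → ℤ,
    (fun i => x i + η i + z i) ∈ U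

/-- The family avoids the set `U`. -/
def Avoids {ℓ : ℕ} (U : Set (Fin ℓ → ℝ)) (A : Family ℓ) : Prop :=
  ∀ (y : Fin A.r → ℝ) (s : ℤ), IsCoprime s (A.q : ℤ) → A.point y s ∉ U

/-- If a family meets the open set `U` then a member of large complexity has a unit multiple in
`U`. -/
theorem bad_step {ℓ : ℕ} (U : Set (Fin ℓ → ℝ)) (hU : OpenPeriodic U) (A : Family ℓ)
    (hq : 0 < A.q) (hbad : ¬ Avoids U A) :
    ∃ N Q' : ℕ, ∀ (m : ℕ), 0 < m → A.q ∣ m → ∀ (k : Fin A.r → ℤ) (a : Fin ℓ → ℤ),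
      (∀ i, (m : ℤ) ∣ a i - (∑ j, A.B i j * k j + ((m / A.q : ℕ) : ℤ) * A.c i)) →
      (∀ t : ℤ, IsCoprime t (m : ℤ) → (fun i => (t * a i : ℝ) / m) ∉ U) →
      ∃ μ : Fin A.r → ℤ, μ ≠ 0 ∧ (∀ i, |μ i| ≤ N) ∧ ∃ u : ℕ, 0 < u ∧ u ≤ Q' ∧
        (m : ℤ) ∣ u * ∑ i, μ i * k i := by
  unfold Avoids at hbad
  push Not at hbad
  obtain ⟨y, s, hs, hx⟩ := hbad
  obtain ⟨ε1, hε1, hpert⟩ := hU (A.point y s) hx
  set L : ℝ := ∑ i, ∑ j, |(A.B i j : ℝ)| + 1 with hL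
  have hL0 : 0 < L := by
    have : 0 ≤ ∑ i, ∑ j, |(A.B i j : ℝ)| :=
      Finset.sum_nonneg (fun i _ => Finset.sum_nonneg (fun j _ => abs_nonneg _))
    rw [hL]; linarith
  obtain ⟨N, Q', happ⟩ := approx A.r A.q hq (ε1 / L) (div_pos hε1 hL0)
  refine ⟨N, Q', fun m hm hqm k a ha hineq => ?_⟩
  by_contra hcon
  push Not at hcon
  obtain ⟨t, htm, hts, hz⟩ := happ m hm hqm k s hs
    (fun μ hμ hμN u hu huQ hdvd => hcon μ hμ hμN u hu huQ hdvd) y
  choose z hz using hz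
  obtain ⟨f, hf⟩ := hts
  choose e he using ha
  have hmR : (m : ℝ) ≠ 0 := by exact_mod_cast hm.ne'
  have hqR : (A.q : ℝ) ≠ 0 := by exact_mod_cast hq.ne'
  obtain ⟨m', hm'⟩ := hqm
  have hmq : m / A.q = m' := by rw [hm']; exact Nat.mul_div_cancel_left m' hq
  have hm'R : (m' : ℝ) ≠ 0 := by
    intro h0; apply hmR; rw [hm']; push_cast; rw [h0]; ring
  have hmR' : (m : ℝ) = A.q * m' := by rw [hm']; push_cast; ring
  set δ : Fin A.r → ℝ := fun j => (t * k j : ℝ) / m - y j - z j with hδ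
  have hval : ∀ i, (t * a i : ℝ) / m = A.point y s i + (∑ j, (A.B i j : ℝ) * δ j)
      + ((∑ j, A.B i j * z j + f * A.c i + t * e i : ℤ) : ℝ) := by
    intro i
    have h1 : (a i : ℝ) = ∑ j, (A.B i j : ℝ) * k j + m' * A.c i + m * e i := by
      have := he i
      rw [hmq] at this
      have h2 : a i = (∑ j, A.B i j * k j + (m' : ℤ) * A.c i) + m * e i := by linarith
      rw [h2]; push_cast; ring
    have h3 : (t : ℝ) = s + A.q * f := by
      have : t = s + A.q * f := by linarith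
      rw [this]; push_cast; ring
    have h4 : ∑ j, (A.B i j : ℝ) * ((t * k j : ℝ) / m)
        = ∑ j, (A.B i j : ℝ) * y j + ∑ j, (A.B i j : ℝ) * δ j + ∑ j, (A.B i j : ℝ) * z j := by
      rw [← Finset.sum_add_distrib, ← Finset.sum_add_distrib]
      refine Finset.sum_congr rfl (fun j _ => ?_)
      rw [hδ]
      ring
    have h5 : (t * a i : ℝ) / m = ∑ j, (A.B i j : ℝ) * ((t * k j : ℝ) / m)
        + t * A.c i / A.q + t * e i := by
      rw [h1]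
      have h6 : ∑ j, (A.B i j : ℝ) * ((t * k j : ℝ) / m) = t * (∑ j, (A.B i j : ℝ) * k j) / m := by
        rw [Finset.mul_sum, Finset.sum_div]
        refine Finset.sum_congr rfl (fun j _ => ?_)
        ring
      rw [h6]
      have h7 : (t : ℝ) * A.c i / A.q = t * (m' * A.c i) / m := by
        rw [hmR']; field_simp
      rw [h7]
      field_simp
    rw [h5, h4]
    unfold Family.point
    have h8 : (t : ℝ) * A.c i / A.q = s * A.c i / A.q + f * A.c i := by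
      rw [h3]; field_simp
    rw [h8]
    push_cast
    ring
  have hη : ∀ i, |∑ j, (A.B i j : ℝ) * δ j| < ε1 := by
    intro i
    have hb : ∀ j, |(A.B i j : ℝ) * δ j| ≤ |(A.B i j : ℝ)| * (ε1 / L) := by
      intro j
      rw [abs_mul]
      exact mul_le_mul_of_nonneg_left (hz j).le (abs_nonneg _)
    calc |∑ j, (A.B i j : ℝ) * δ j| ≤ ∑ j, |(A.B i j : ℝ) * δ j| := Finset.abs_sum_le_sum_abs _ _
      _ ≤ ∑ j, |(A.B i j : ℝ)| * (ε1 / L) := Finset.sum_le_sum (fun j _ => hb j)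
      _ = (∑ j, |(A.B i j : ℝ)|) * (ε1 / L) := by rw [Finset.sum_mul]
      _ < L * (ε1 / L) := by
        apply mul_lt_mul_of_pos_right _ (div_pos hε1 hL0)
        have : ∑ j, |(A.B i j : ℝ)| ≤ ∑ i, ∑ j, |(A.B i j : ℝ)| :=
          Finset.single_le_sum (f := fun i => ∑ j, |(A.B i j : ℝ)|)
            (fun i _ => Finset.sum_nonneg (fun j _ => abs_nonneg _)) (Finset.mem_univ i)
        rw [hL]; linarith
      _ = ε1 := by field_simp
  have hfin := hpert (fun i => ∑ j, (A.B i j : ℝ) * δ j) hη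
    (fun i => ∑ j, A.B i j * z j + f * A.c i + t * e i)
  apply hineq t htm
  have h10 : (fun i => (t * a i : ℝ) / m)
      = (fun i => A.point y s i + (∑ j, (A.B i j : ℝ) * δ j)
      + ((∑ j, A.B i j * z j + f * A.c i + t * e i : ℤ) : ℝ)) := by
    funext i; exact hval i
  rw [h10]
  exact hfin

/-- Composition of a family with a substitution of its parameters. -/
def comp {ℓ r r' : ℕ} (B : Fin ℓ → Fin r → ℤ) (q : ℕ) (c : Fin ℓ → ℤ)
    (x : (Fin r → Fin r' → ℤ) × (Fin r → ℤ) × ℕ) : Family ℓ where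
  r := r'
  B := fun i j => ∑ l, B i l * x.1 l j
  q := Nat.lcm q x.2.2
  c := fun i => ((Nat.lcm q x.2.2 / x.2.2 : ℕ) : ℤ) * ∑ l, B i l * x.2.1 l
    + ((Nat.lcm q x.2.2 / q : ℕ) : ℤ) * c i

theorem comp_mem {ℓ r r' : ℕ} (B : Fin ℓ → Fin r → ℤ) (q : ℕ) (hq : 0 < q) (c : Fin ℓ → ℤ)
    (x : (Fin r → Fin r' → ℤ) × (Fin r → ℤ) × ℕ) (hx : 0 < x.2.2) (m : ℕ) (a : Fin ℓ → ℤ)
    (hqm : q ∣ m) (k : Fin r → ℤ)
    (ha : ∀ i, (m : ℤ) ∣ a i - (∑ j, B i j * k j + ((m / q : ℕ) : ℤ) * c i))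
    (hxm : x.2.2 ∣ m) (k' : Fin r' → ℤ)
    (hk : ∀ i, (m : ℤ) ∣ k i - (∑ j, x.1 i j * k' j + ((m / x.2.2 : ℕ) : ℤ) * x.2.1 i)) :
    (comp B q c x).Mem m a := by
  have hl : Nat.lcm q x.2.2 ∣ m := Nat.lcm_dvd hqm hxm
  refine ⟨hl, k', fun i => ?_⟩
  obtain ⟨M, hM⟩ := hl
  have hlpos : 0 < Nat.lcm q x.2.2 := Nat.lcm_pos hq hx
  obtain ⟨q1, hq1⟩ := Nat.dvd_lcm_left q x.2.2
  obtain ⟨q2, hq2⟩ := Nat.dvd_lcm_right q x.2.2
  have e1 : Nat.lcm q x.2.2 / q = q1 := by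
    conv_lhs => rw [hq1]
    exact Nat.mul_div_cancel_left q1 hq
  have e2 : Nat.lcm q x.2.2 / x.2.2 = q2 := by
    conv_lhs => rw [hq2]
    exact Nat.mul_div_cancel_left q2 hx
  have e3 : m / Nat.lcm q x.2.2 = M := by
    conv_lhs => rw [hM]
    exact Nat.mul_div_cancel_left M hlpos
  have e4 : m / q = q1 * M := by
    conv_lhs => rw [hM, hq1, mul_assoc]
    exact Nat.mul_div_cancel_left _ hq
  have e5 : m / x.2.2 = q2 * M := by
    conv_lhs => rw [hM, hq2, mul_assoc]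
    exact Nat.mul_div_cancel_left _ hx
  have ha' := ha i
  rw [e4] at ha'
  simp only [e5] at hk
  choose e he using hk
  have hke : ∀ l, k l = (∑ j, x.1 l j * k' j + ((q2 * M : ℕ) : ℤ) * x.2.1 l) + m * e l := by
    intro l; linarith [he l]
  show (m : ℤ) ∣ a i - (∑ j, (∑ l, B i l * x.1 l j) * k' j + ((m / Nat.lcm q x.2.2 : ℕ) : ℤ) *
    (((Nat.lcm q x.2.2 / x.2.2 : ℕ) : ℤ) * ∑ l, B i l * x.2.1 l
    + ((Nat.lcm q x.2.2 / q : ℕ) : ℤ) * c i))
  rw [e1, e2, e3]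
  obtain ⟨g, hg⟩ := ha'
  have hs : ∑ l, B i l * k l = ∑ j, (∑ l, B i l * x.1 l j) * k' j
      + ((q2 * M : ℕ) : ℤ) * ∑ l, B i l * x.2.1 l + m * ∑ l, B i l * e l := by
    have h1 : ∀ l, B i l * k l = ∑ j, B i l * x.1 l j * k' j
        + ((q2 * M : ℕ) : ℤ) * (B i l * x.2.1 l) + m * (B i l * e l) := by
      intro l
      rw [hke l, mul_add, mul_add, Finset.mul_sum]
      congr 1
      · congr 1
        · exact Finset.sum_congr rfl (fun j _ => by ring)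
        · ring
      · ring
    rw [Finset.sum_congr rfl (fun l _ => h1 l), Finset.sum_add_distrib, Finset.sum_add_distrib,
      Finset.sum_comm, ← Finset.mul_sum, ← Finset.mul_sum]
    congr 2
    refine Finset.sum_congr rfl (fun j _ => ?_)
    rw [Finset.sum_mul]
  refine ⟨g + ∑ l, B i l * e l, ?_⟩
  have h2 : a i = (∑ j, B i j * k j + ((q1 * M : ℕ) : ℤ) * c i) + m * g := by linarith
  rw [h2, hs]
  push_cast
  ring

theorem comp_rel {ℓ r r' : ℕ} (B : Fin ℓ → Fin r → ℤ) (q : ℕ) (hq : 0 < q) (c : Fin ℓ → ℤ)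
    (x : (Fin r → Fin r' → ℤ) × (Fin r → ℤ) × ℕ) (ρ : Fin ℓ → ℤ)
    (h : (⟨r, B, q, c⟩ : Family ℓ).Rel ρ) : (comp B q c x).Rel ρ := by
  obtain ⟨h1, h2⟩ := h
  dsimp only at h1 h2
  have key : ∀ v : Fin r → ℤ, ∑ i, ρ i * ∑ l, B i l * v l = 0 := by
    intro v
    simp_rw [Finset.mul_sum]
    rw [Finset.sum_comm]
    apply Finset.sum_eq_zero
    intro l _
    have : ∑ i, ρ i * (B i l * v l) = (∑ i, ρ i * B i l) * v l := by
      rw [Finset.sum_mul]; exact Finset.sum_congr rfl (fun i _ => by ring)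
    rw [this, h1 l, zero_mul]
  constructor
  · intro j
    exact key (fun l => x.1 l j)
  · show ((Nat.lcm q x.2.2 : ℕ) : ℤ) ∣ ∑ i, ρ i * (((Nat.lcm q x.2.2 / x.2.2 : ℕ) : ℤ) *
      ∑ l, B i l * x.2.1 l + ((Nat.lcm q x.2.2 / q : ℕ) : ℤ) * c i)
    have e : ∑ i, ρ i * (((Nat.lcm q x.2.2 / x.2.2 : ℕ) : ℤ) *
        ∑ l, B i l * x.2.1 l + ((Nat.lcm q x.2.2 / q : ℕ) : ℤ) * c i)
        = ((Nat.lcm q x.2.2 / x.2.2 : ℕ) : ℤ) * ∑ i, ρ i * ∑ l, B i l * x.2.1 l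
          + ((Nat.lcm q x.2.2 / q : ℕ) : ℤ) * ∑ i, ρ i * c i := by
      rw [Finset.mul_sum, Finset.mul_sum, ← Finset.sum_add_distrib]
      exact Finset.sum_congr rfl (fun i _ => by ring)
    rw [e, key, mul_zero, zero_add]
    obtain ⟨q1, hq1⟩ := Nat.dvd_lcm_left q x.2.2
    have e1 : Nat.lcm q x.2.2 / q = q1 := by
      conv_lhs => rw [hq1]
      exact Nat.mul_div_cancel_left q1 hq
    obtain ⟨z, hz⟩ := h2
    rw [e1, hz]
    refine ⟨z, ?_⟩
    conv_rhs => rw [hq1]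
    push_cast
    ring

/-- The set of integral vectors with bounded entries is finite. -/
theorem finite_box (r N : ℕ) : {μ : Fin r → ℤ | μ ≠ 0 ∧ ∀ i, |μ i| ≤ N}.Finite := by
  apply Set.Finite.subset (Set.Finite.pi' (fun _ : Fin r => Set.finite_Icc (-(N : ℤ)) N))
  rintro μ ⟨_, h⟩ i
  exact ⟨(abs_le.mp (h i)).1, (abs_le.mp (h i)).2⟩

/-- Every family contains finitely many subfamilies avoiding `U` which contain all its members all
of whose unit multiples avoid `U`. -/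
theorem main_families {ℓ : ℕ} (U : Set (Fin ℓ → ℝ)) (hU : OpenPeriodic U) : ∀ (r : ℕ) (B : Fin ℓ → Fin r → ℤ) (q : ℕ) (c : Fin ℓ → ℤ),
    0 < q → ∃ F : Set (Family ℓ), F.Finite ∧
      (∀ A ∈ F, 0 < A.q ∧ Avoids U A ∧ ∀ ρ, (⟨r, B, q, c⟩ : Family ℓ).Rel ρ → A.Rel ρ) ∧
      ∀ m : ℕ, 0 < m → ∀ a : Fin ℓ → ℤ, (⟨r, B, q, c⟩ : Family ℓ).Mem m a →
        (∀ t : ℤ, IsCoprime t (m : ℤ) → (fun i => (t * a i : ℝ) / m) ∉ U) →
        ∃ A ∈ F, A.Mem m a := by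
  classical
  intro r
  induction r with
  | zero =>
    intro B q c hq
    by_cases hgood : Avoids U (⟨0, B, q, c⟩ : Family ℓ)
    · exact ⟨{⟨0, B, q, c⟩}, Set.finite_singleton _, by
        rintro A rfl; exact ⟨hq, hgood, fun ρ h => h⟩,
        fun m hm a ha _ => ⟨_, rfl, ha⟩⟩
    · obtain ⟨N, Q', hstep⟩ := bad_step U hU ⟨0, B, q, c⟩ hq hgood
      refine ⟨∅, Set.finite_empty, by simp, fun m hm a ha hineq => ?_⟩
      obtain ⟨hqm, k, hk⟩ := ha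
      obtain ⟨μ, hμ, _⟩ := hstep m hm hqm k a hk hineq
      exact absurd (Subsingleton.elim μ 0) hμ
  | succ r ih =>
    intro B q c hq
    by_cases hgood : Avoids U (⟨r + 1, B, q, c⟩ : Family ℓ)
    · exact ⟨{⟨r + 1, B, q, c⟩}, Set.finite_singleton _, by
        rintro A rfl; exact ⟨hq, hgood, fun ρ h => h⟩,
        fun m hm a ha _ => ⟨_, rfl, ha⟩⟩
    · obtain ⟨N, Q', hstep⟩ := bad_step U hU ⟨r + 1, B, q, c⟩ hq hgood
      -- solutions of the relations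
      have hred : ∀ μ : Fin (r + 1) → ℤ, ∃ S : Set ((Fin (r + 1) → Fin r → ℤ) × (Fin (r + 1) → ℤ) × ℕ),
          μ ≠ 0 → (S.Finite ∧ (∀ x ∈ S, 0 < x.2.2) ∧
          ∀ m : ℕ, 0 < m → ∀ k : Fin (r + 1) → ℤ,
            (∃ u : ℕ, 0 < u ∧ u ≤ Q' ∧ (m : ℤ) ∣ u * ∑ i, μ i * k i) →
            ∃ x ∈ S, x.2.2 ∣ m ∧ ∃ k' : Fin r → ℤ, ∀ i,
              (m : ℤ) ∣ k i - (∑ j, x.1 i j * k' j + ((m / x.2.2 : ℕ) : ℤ) * x.2.1 i)) := by
        intro μ
        by_cases hμ : μ = 0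
        · exact ⟨∅, fun h => absurd hμ h⟩
        · obtain ⟨S, hS⟩ := reduce r μ hμ Q'
          exact ⟨S, fun _ => hS⟩
      choose S hS using hred
      have hF : ∀ x : (Fin (r + 1) → Fin r → ℤ) × (Fin (r + 1) → ℤ) × ℕ, ∃ F : Set (Family ℓ),
          0 < x.2.2 → (F.Finite ∧
          (∀ A ∈ F, 0 < A.q ∧ Avoids U A ∧ ∀ ρ, (comp B q c x).Rel ρ → A.Rel ρ) ∧
          ∀ m : ℕ, 0 < m → ∀ a : Fin ℓ → ℤ, (comp B q c x).Mem m a →
            (∀ t : ℤ, IsCoprime t (m : ℤ) → (fun i => (t * a i : ℝ) / m) ∉ U) →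
            ∃ A ∈ F, A.Mem m a) := by
        intro x
        by_cases hx : 0 < x.2.2
        · obtain ⟨F, hF⟩ := ih (comp B q c x).B (comp B q c x).q (comp B q c x).c
            (Nat.lcm_pos hq hx)
          exact ⟨F, fun _ => hF⟩
        · exact ⟨∅, fun h => absurd h hx⟩
      choose F hF using hF
      refine ⟨⋃ μ ∈ {μ : Fin (r + 1) → ℤ | μ ≠ 0 ∧ ∀ i, |μ i| ≤ N}, ⋃ x ∈ S μ, F x, ?_, ?_, ?_⟩
      · apply Set.Finite.biUnion (finite_box (r + 1) N)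
        rintro μ ⟨hμ, _⟩
        apply Set.Finite.biUnion (hS μ hμ).1
        intro x hx
        exact (hF x ((hS μ hμ).2.1 x hx)).1
      · intro A hA
        simp only [Set.mem_iUnion, exists_prop] at hA
        obtain ⟨μ, ⟨hμ, _⟩, x, hx, hAx⟩ := hA
        obtain ⟨h1, h2, h3⟩ := (hF x ((hS μ hμ).2.1 x hx)).2.1 A hAx
        exact ⟨h1, h2, fun ρ hρ => h3 ρ (comp_rel B q hq c x ρ hρ)⟩
      · intro m hm a ha hineq
        obtain ⟨hqm, k, hk⟩ := ha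
        obtain ⟨μ, hμ, hμN, u, hu, huQ, hdvd⟩ := hstep m hm hqm k a hk hineq
        obtain ⟨x, hx, hxm, k', hk'⟩ := (hS μ hμ).2.2 m hm k ⟨u, hu, huQ, hdvd⟩
        have hx0 := (hS μ hμ).2.1 x hx
        obtain ⟨A, hA, hAm⟩ := (hF x hx0).2.2 m hm a
          (comp_mem B q hq c x hx0 m a hqm k hk hxm k' hk') hineq
        refine ⟨A, ?_, hAm⟩
        simp only [Set.mem_iUnion, exists_prop]
        exact ⟨μ, ⟨hμ, hμN⟩, x, hx, hA⟩

end Pool.Agent.FermatFam
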