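import Mathlib

/-!
# Sums of additive characters over the units modulo `m`
-/

set_option autoImplicit false

open Finset Complex

namespace Pool.Agent.FermatFam

/-- The sum of the primitive `n`-th roots of unity has absolute value at most one. -/
theorem norm_sum_primitiveRoots_le (n : ℕ) (hn : 0 < n) :
    ‖∑ z ∈ primitiveRoots n ℂ, z‖ ≤ 1 := by
  classical
  have h1 : ∀ n > 0, ∑ i ∈ n.divisors, (∑ z ∈ primitiveRoots i ℂ, z)
      = (if n = 1 then (1 : ℂ) else 0) := by
    intro n hn
    have hd : (n.divisors : Set ℕ).PairwiseDisjoint fun k => primitiveRoots k ℂ :=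
      fun x _ y _ hne => IsPrimitiveRoot.disjoint hne
    rw [← Finset.sum_biUnion hd, ← IsPrimitiveRoot.nthRoots_one_eq_biUnion_primitiveRoots]
    have hp := Complex.isPrimitiveRoot_exp n hn.ne'
    have himg : Polynomial.nthRootsFinset n (1 : ℂ)
        = (Finset.range n).image (fun i => (exp (2 * Real.pi * I / n)) ^ i) := by
      ext x
      simp only [Polynomial.mem_nthRootsFinset hn, Finset.mem_image, Finset.mem_range]
      constructor
      · intro hx
        have : NeZero n := ⟨hn.ne'⟩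
        obtain ⟨i, hi, rfl⟩ := hp.eq_pow_of_pow_eq_one hx
        exact ⟨i, hi, rfl⟩
      · rintro ⟨i, _, rfl⟩
        rw [← pow_mul, mul_comm i n, pow_mul, hp.pow_eq_one, one_pow]
    rw [himg, Finset.sum_image]
    · split_ifs with h
      · subst h; simp
      · exact hp.geom_sum_eq_zero (by omega)
    · intro i hi j hj hij
      exact hp.pow_inj (Finset.mem_range.mp hi) (Finset.mem_range.mp hj) hij
  have h2 := (ArithmeticFunction.sum_eq_iff_sum_mul_moebius_eq.mp h1) n hn
  rw [← h2]
  have h3 : ∑ x ∈ n.divisorsAntidiagonal,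
      ((ArithmeticFunction.moebius x.1 : ℤ) : ℂ) * (if x.2 = 1 then (1 : ℂ) else 0)
      = ((ArithmeticFunction.moebius n : ℤ) : ℂ) := by
    rw [Finset.sum_eq_single (n, 1)]
    · simp
    · rintro ⟨a, b⟩ hab hne
      have : b ≠ 1 := by
        rintro rfl
        rw [Nat.mem_divisorsAntidiagonal] at hab
        apply hne
        simp at hab
        simp [hab.1]
      simp [this]
    · intro h
      exfalso; apply h
      rw [Nat.mem_divisorsAntidiagonal]
      exact ⟨by simp, hn.ne'⟩
  rw [h3]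
  have := ArithmeticFunction.abs_moebius_le_one (n := n)
  rw [Complex.norm_intCast]
  exact_mod_cast this

/-- The sum of `exp(2πi v/n)` over the units `v` modulo `n` has absolute value at most one. -/
theorem norm_sum_units_le (n : ℕ) [NeZero n] :
    ‖∑ v : (ZMod n)ˣ, ZMod.stdAddChar (v : ZMod n)‖ ≤ 1 := by
  classical
  have hn : 0 < n := Nat.pos_of_ne_zero (NeZero.ne n)
  have h := norm_sum_primitiveRoots_le n hn
  convert h using 2
  refine Finset.sum_bij (fun v _ => ZMod.stdAddChar (v : ZMod n)) ?_ ?_ ?_ ?_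
  · intro v _
    rw [mem_primitiveRoots hn, Complex.isPrimitiveRoot_iff _ n hn.ne']
    refine ⟨(v : ZMod n).val, ZMod.val_lt _, ZMod.val_coe_unit_coprime v, ?_⟩
    have : ((((v : ZMod n).val : ℕ) : ℤ) : ZMod n) = (v : ZMod n) := by
      simp
    conv_rhs => rw [← this]
    rw [ZMod.stdAddChar_coe]
    congr 1
    push_cast
    ring
  · intro v _ w _ hvw
    exact Units.ext (ZMod.injective_stdAddChar hvw)
  · intro z hz
    rw [mem_primitiveRoots hn, Complex.isPrimitiveRoot_iff _ n hn.ne'] at hz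
    obtain ⟨i, hi, hc, rfl⟩ := hz
    refine ⟨ZMod.unitOfCoprime i hc, Finset.mem_univ _, ?_⟩
    have : ((ZMod.unitOfCoprime i hc : (ZMod n)ˣ) : ZMod n) = (((i : ℕ) : ℤ) : ZMod n) := by
      simp
    rw [this, ZMod.stdAddChar_coe]
    congr 1
    push_cast
    ring
  · intro v _; rfl

/-- Summation over the units modulo `m` of a function that depends on the residue modulo a
divisor `n` of `m`. -/
theorem sum_units_of_dvd {m n : ℕ} [NeZero m] [NeZero n] (h : n ∣ m) (G : (ZMod n)ˣ → ℂ) :
    (Nat.totient n : ℂ) * ∑ u : (ZMod m)ˣ, G (ZMod.unitsMap h u)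
      = (Nat.totient m : ℂ) * ∑ v : (ZMod n)ˣ, G v := by
  classical
  set f := ZMod.unitsMap h with hf
  have hsurj : Function.Surjective f := ZMod.unitsMap_surjective h
  have hfib : ∀ v : (ZMod n)ˣ, (Finset.univ.filter (fun u => f u = v)).card
      = (Finset.univ.filter (fun u => f u = 1)).card := fun v =>
    MonoidHom.card_fiber_eq_of_mem_range f (hsurj v) (hsurj 1)
  set c := (Finset.univ.filter (fun u => f u = (1 : (ZMod n)ˣ))).card with hc
  have hcard : Nat.totient m = Nat.totient n * c := by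
    have h1 : Fintype.card (ZMod m)ˣ = ∑ v : (ZMod n)ˣ,
        (Finset.univ.filter (fun u => f u = v)).card := by
      rw [← Finset.card_univ]
      exact Finset.card_eq_sum_card_fiberwise (fun x _ => Finset.mem_univ _)
    rw [Finset.sum_congr rfl (fun v _ => hfib v), Finset.sum_const, Finset.card_univ,
      ZMod.card_units_eq_totient, ZMod.card_units_eq_totient] at h1
    simpa using h1
  have hsum : ∑ u : (ZMod m)ˣ, G (f u) = (c : ℂ) * ∑ v : (ZMod n)ˣ, G v := by
    rw [← Finset.sum_fiberwise (s := Finset.univ) (g := f) (f := fun u => G (f u)), Finset.mul_sum]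
    refine Finset.sum_congr rfl (fun v _ => ?_)
    rw [Finset.sum_congr rfl (g := fun _ => G v)]
    · rw [Finset.sum_const, hfib v, nsmul_eq_mul]
    · intro u hu
      rw [(Finset.mem_filter.mp hu).2]
  rw [hsum, hcard]
  push_cast
  ring

/-- Ramanujan sums: if `h` has additive order `n` modulo `m = n g`, i.e. `h = g h'` with `h'` prime
to `n`, then the sum of `exp(2πi u h/m)` over the units `u` is at most `φ(m)/φ(n)`. -/
theorem norm_ramanujan_le {m n g : ℕ} [NeZero m] [NeZero n] (hm : m = n * g) (h' : ℤ)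
    (hcop : IsCoprime h' (n : ℤ)) :
    (Nat.totient n : ℝ) * ‖∑ u : (ZMod m)ˣ, ZMod.stdAddChar ((((g : ℤ) * h' : ℤ) : ZMod m) * (u : ZMod m))‖
      ≤ (Nat.totient m : ℝ) := by
  have hdvd : n ∣ m := ⟨g, hm⟩
  have hg : g ≠ 0 := by rintro rfl; exact NeZero.ne m (by simp [hm])
  obtain ⟨w, hw⟩ : ∃ w : (ZMod n)ˣ, (w : ZMod n) = ((h' : ℤ) : ZMod n) := by
    have : IsUnit ((h' : ℤ) : ZMod n) := by
      have := (ZMod.coe_int_isUnit_iff_isCoprime h' n)
      rw [this]
      exact hcop.symm
    exact ⟨this.unit, by simp⟩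
  have key : ∀ u : (ZMod m)ˣ, ZMod.stdAddChar ((((g : ℤ) * h' : ℤ) : ZMod m) * (u : ZMod m))
      = (fun v : (ZMod n)ˣ => ZMod.stdAddChar ((w * v : (ZMod n)ˣ) : ZMod n)) (ZMod.unitsMap hdvd u) := by
    intro u
    have e1 : (((g : ℤ) * h' : ℤ) : ZMod m) * (u : ZMod m)
        = (((g : ℤ) * h' * ((u : ZMod m).val : ℤ) : ℤ) : ZMod m) := by
      push_cast
      congr 1
      simp
    have e2 : ((w * ZMod.unitsMap hdvd u : (ZMod n)ˣ) : ZMod n)
        = ((h' * ((u : ZMod m).val : ℤ) : ℤ) : ZMod n) := by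
      push_cast
      rw [hw, ZMod.unitsMap_val]
      congr 1
      rw [ZMod.natCast_val]
    simp only
    rw [e1, e2, ZMod.stdAddChar_coe, ZMod.stdAddChar_coe]
    congr 1
    have hn0 : (n : ℂ) ≠ 0 := by exact_mod_cast NeZero.ne n
    have hg0 : (g : ℂ) ≠ 0 := by exact_mod_cast hg
    have hmC : (m : ℂ) = (n : ℂ) * (g : ℂ) := by rw [hm]; push_cast; ring
    push_cast
    rw [hmC]
    field_simp
  rw [Finset.sum_congr rfl (fun u _ => key u)]
  have h1 := sum_units_of_dvd hdvd (fun v : (ZMod n)ˣ => ZMod.stdAddChar ((w * v : (ZMod n)ˣ) : ZMod n))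
  have h2 : ∑ v : (ZMod n)ˣ, ZMod.stdAddChar ((w * v : (ZMod n)ˣ) : ZMod n)
      = ∑ v : (ZMod n)ˣ, ZMod.stdAddChar ((v : (ZMod n)ˣ) : ZMod n) :=
    Fintype.sum_bijective (fun v => w * v) (Group.mulLeft_bijective w) _ _ (fun v => rfl)
  rw [h2] at h1
  have h3 := congrArg norm h1
  rw [norm_mul, norm_mul, Complex.norm_natCast, Complex.norm_natCast] at h3
  rw [h3]
  calc (Nat.totient m : ℝ) * ‖∑ v : (ZMod n)ˣ, ZMod.stdAddChar ((v : (ZMod n)ˣ) : ZMod n)‖
      ≤ (Nat.totient m : ℝ) * 1 := by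
        gcongr
        exact norm_sum_units_le n
    _ = _ := mul_one _

end Pool.Agent.FermatFam
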