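import Mathlib

/-!
# Growth of the totient function
-/

set_option autoImplicit false

namespace Pool.Agent.FermatFam

/-- For every bound `C` there is an `N` such that every `n > N` has totient larger than `C`. -/
theorem totient_large (C : ℕ) : ∃ N : ℕ, ∀ n : ℕ, N < n → C < Nat.totient n := by
  -- odd case: n ≤ φ(n)^2, general n ≤ 2 φ(n)^2
  have key : ∀ n : ℕ, 0 < n → n ≤ 2 * (Nat.totient n) ^ 2 ∧ (Odd n → n ≤ (Nat.totient n) ^ 2) := by
    intro n
    induction n using Nat.recOnPosPrimePosCoprime with
    | prime_pow p e hp he =>
      intro _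
      have ht : Nat.totient (p ^ e) = p ^ (e - 1) * (p - 1) := Nat.totient_prime_pow hp he
      obtain ⟨f, rfl⟩ : ∃ f, e = f + 1 := ⟨e - 1, by omega⟩
      have hp2 : 2 ≤ p := hp.two_le
      rw [ht]
      simp only [Nat.add_sub_cancel]
      obtain ⟨a, rfl⟩ : ∃ a, p = a + 1 := ⟨p - 1, by omega⟩
      simp only [Nat.add_sub_cancel]
      have ha : 1 ≤ a := by omega
      set P := (a + 1) ^ f with hP
      have hP1 : 1 ≤ P := Nat.one_le_pow _ _ (by omega)
      have e1 : (a + 1) ^ (f + 1) = P * (a + 1) := by rw [pow_succ]
      rw [e1]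
      constructor
      · have : a + 1 ≤ 2 * a ^ 2 := by nlinarith
        nlinarith [Nat.mul_le_mul hP1 this, Nat.mul_le_mul_left P this, Nat.mul_le_mul_right (a^2) hP1,
          Nat.mul_le_mul_left (P * (2 * a ^ 2)) hP1]
      · intro hodd
        have ha2 : 2 ≤ a := by
          by_contra hlt
          have : a = 1 := by omega
          subst this
          rw [← e1] at hodd
          have : Even ((1 + 1) ^ (f + 1)) := by
            rw [pow_succ]; exact Even.mul_left (by decide) _
          exact (Nat.not_even_iff_odd.mpr hodd) this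
        have : a + 1 ≤ a ^ 2 := by nlinarith
        nlinarith [Nat.mul_le_mul_left P this, Nat.mul_le_mul_left (P * (a ^ 2)) hP1]
    | zero => intro h; omega
    | one => intro _; simp
    | coprime a b ha hb hab iha ihb =>
      intro _
      have ha' := iha (by omega)
      have hb' := ihb (by omega)
      rw [Nat.totient_mul hab]
      constructor
      · -- one of a, b is odd
        rcases Nat.even_or_odd a with hev | hod
        · have hbodd : Odd b := by
            by_contra hne
            rw [Nat.not_odd_iff_even] at hne
            have h2a : 2 ∣ a := hev.two_dvd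
            have h2b : 2 ∣ b := hne.two_dvd
            have := Nat.dvd_gcd h2a h2b
            rw [hab] at this
            omega
          calc a * b ≤ (2 * a.totient ^ 2) * (b.totient ^ 2) := Nat.mul_le_mul ha'.1 (hb'.2 hbodd)
            _ = 2 * (a.totient * b.totient) ^ 2 := by ring
        · calc a * b ≤ (a.totient ^ 2) * (2 * b.totient ^ 2) := Nat.mul_le_mul (ha'.2 hod) hb'.1
            _ = 2 * (a.totient * b.totient) ^ 2 := by ring
      · intro hodd
        have hoa : Odd a := Nat.Odd.of_mul_right (by simpa [mul_comm] using hodd)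
        have hob : Odd b := Nat.Odd.of_mul_right hodd
        calc a * b ≤ (a.totient ^ 2) * (b.totient ^ 2) := Nat.mul_le_mul (ha'.2 hoa) (hb'.2 hob)
          _ = (a.totient * b.totient) ^ 2 := by ring
  refine ⟨2 * C ^ 2, fun n hn => ?_⟩
  have h := (key n (by omega)).1
  by_contra hle
  push Not at hle
  have : n.totient ^ 2 ≤ C ^ 2 := Nat.pow_le_pow_left hle 2
  omega

end Pool.Agent.FermatFam
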