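import Pool.Agent.FermatFam.Kernel
import Pool.Agent.FermatFam.Ramanujan
import Pool.Agent.FermatFam.Totient

/-!
# Sums over the units in a residue class
-/

set_option autoImplicit false

open Finset Complex

namespace Pool.Agent.FermatFam

/-- The standard integer representative of a unit. -/
def rep {m : ℕ} (u : (ZMod m)ˣ) : ℤ := ((u : ZMod m).val : ℤ)

theorem rep_cast {m : ℕ} [NeZero m] (u : (ZMod m)ˣ) : ((rep u : ℤ) : ZMod m) = (u : ZMod m) := by
  unfold rep; simp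

theorem rep_coprime {m : ℕ} (u : (ZMod m)ˣ) : IsCoprime (rep u) (m : ℤ) := by
  unfold rep
  exact Nat.isCoprime_iff_coprime.mpr (ZMod.val_coe_unit_coprime u)

/-- `exp(2πi h t/m)` as an additive character. -/
theorem char_eq {m : ℕ} [NeZero m] (u : (ZMod m)ˣ) (h : ℤ) :
    ZMod.stdAddChar ((h : ZMod m) * (u : ZMod m)) = exp (2 * Real.pi * I * (h * rep u / m)) := by
  have : (h : ZMod m) * (u : ZMod m) = ((h * rep u : ℤ) : ZMod m) := by
    push_cast; rw [rep_cast]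
  rw [this, ZMod.stdAddChar_coe]
  congr 1
  push_cast
  ring

theorem unit_sum_bound {m : ℕ} [NeZero m] (C N1 : ℕ) (hC : ∀ n : ℕ, N1 < n → C < Nat.totient n)
    (h : ℤ) (hh : ∀ u : ℕ, 0 < u → u ≤ N1 → ¬ (m : ℤ) ∣ u * h) :
    (C : ℝ) * ‖∑ u : (ZMod m)ˣ, ZMod.stdAddChar ((h : ZMod m) * (u : ZMod m))‖
      ≤ (Nat.totient m : ℝ) := by
  have hm0 : (m : ℤ) ≠ 0 := by exact_mod_cast NeZero.ne m
  set g : ℕ := Int.gcd h m with hg
  have hg0 : g ≠ 0 := by
    intro h0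
    rw [hg, Int.gcd_eq_zero_iff] at h0
    exact hm0 h0.2
  have hgm : (g : ℤ) ∣ (m : ℤ) := Int.gcd_dvd_right h m
  have hgh : (g : ℤ) ∣ h := Int.gcd_dvd_left h m
  obtain ⟨n, hn⟩ : ∃ n : ℕ, m = n * g := by
    have : g ∣ m := by exact_mod_cast hgm
    obtain ⟨n, hn⟩ := this
    exact ⟨n, by rw [hn]; ring⟩
  obtain ⟨h', hh'⟩ := hgh
  have hn0 : n ≠ 0 := by rintro rfl; exact NeZero.ne m (by simp [hn])
  have : NeZero n := ⟨hn0⟩
  have hcop : IsCoprime h' (n : ℤ) := by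
    have h1 : Int.gcd h m = g := rfl
    rw [Int.isCoprime_iff_gcd_eq_one]
    have h2 : Int.gcd h (m : ℤ) = g * Int.gcd h' n := by
      conv_lhs => rw [hh', hn]
      push_cast
      rw [mul_comm (n : ℤ) (g : ℤ), Int.gcd_mul_left]
      simp
    rw [← hg] at h2
    have : g * 1 = g * Int.gcd h' n := by rw [mul_one]; exact h2
    exact (Nat.eq_of_mul_eq_mul_left (Nat.pos_of_ne_zero hg0) this).symm
  have hnbig : N1 < n := by
    by_contra hle
    push Not at hle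
    apply hh n (Nat.pos_of_ne_zero hn0) hle
    refine ⟨h', ?_⟩
    conv_lhs => rw [hh']
    rw [hn]; push_cast; ring
  have hb := norm_ramanujan_le hn h' hcop
  have e : (g : ℤ) * h' = h := hh'.symm
  rw [e] at hb
  refine le_trans ?_ hb
  have : (C : ℝ) ≤ (Nat.totient n : ℝ) := by exact_mod_cast (hC n hnbig).le
  gcongr

/-- Fourier expansion of the indicator function of `q ∣ x`. -/
theorem ind_expand (q : ℕ) (hq : 0 < q) (x : ℤ) :
    (if (q : ℤ) ∣ x then (1 : ℂ) else 0)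
      = (1 / (q : ℂ)) * ∑ a ∈ range q, exp (2 * Real.pi * I * (a * x / q)) := by
  have hq0 : (q : ℂ) ≠ 0 := by exact_mod_cast hq.ne'
  have hpow : ∀ a : ℕ, exp (2 * Real.pi * I * (a * x / q)) = exp (2 * Real.pi * I * (x / q)) ^ a := by
    intro a
    rw [← exp_nat_mul]
    congr 1
    ring
  rw [Finset.sum_congr rfl (fun a _ => hpow a)]
  have hq1 : exp (2 * Real.pi * I * (x / q)) ^ q = 1 := by
    rw [← exp_nat_mul, Complex.exp_eq_one_iff]
    refine ⟨x, ?_⟩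
    field_simp
  by_cases hx : (q : ℤ) ∣ x
  · rw [if_pos hx]
    obtain ⟨z, rfl⟩ := hx
    have : exp (2 * Real.pi * I * (((q : ℤ) * z : ℤ) / q)) = 1 := by
      rw [Complex.exp_eq_one_iff]
      refine ⟨z, ?_⟩
      push_cast
      field_simp
    rw [this]
    simp [hq0]
  · rw [if_neg hx]
    have hne : exp (2 * Real.pi * I * (x / q)) ≠ 1 := by
      intro h1
      rw [Complex.exp_eq_one_iff] at h1
      obtain ⟨z, hz⟩ := h1
      apply hx
      refine ⟨z, ?_⟩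
      have hpi : (2 * Real.pi * I : ℂ) ≠ 0 := by simp [Real.pi_ne_zero]
      have : (x : ℂ) = (q : ℂ) * z := by
        have h2 : (x : ℂ) / q = z := by
          apply mul_left_cancel₀ hpi
          rw [hz]; ring
        field_simp at h2
        rw [h2]
      exact_mod_cast this
    rw [geom_sum_eq hne, hq1]
    simp

theorem unit_sum_ind_bound {m : ℕ} [NeZero m] (q : ℕ) (hq : 0 < q) (hqm : q ∣ m) (s : ℤ)
    (C N1 : ℕ) (hC : ∀ n : ℕ, N1 < n → C < Nat.totient n)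
    (h : ℤ) (hh : ∀ u : ℕ, 0 < u → u ≤ q * N1 → ¬ (m : ℤ) ∣ u * h) :
    (C : ℝ) * ‖∑ u : (ZMod m)ˣ, (if (q : ℤ) ∣ rep u - s then (1 : ℂ) else 0)
        * exp (2 * Real.pi * I * (h * rep u / m))‖ ≤ (Nat.totient m : ℝ) := by
  obtain ⟨m', hm'⟩ := hqm
  have hq0 : (q : ℂ) ≠ 0 := by exact_mod_cast hq.ne'
  have hm0 : (m : ℂ) ≠ 0 := by exact_mod_cast NeZero.ne m
  have hm'0 : (m' : ℂ) ≠ 0 := by
    intro h0
    apply hm0
    rw [hm']; push_cast; rw [h0]; ring
  have hmC : (m : ℂ) = q * m' := by rw [hm']; push_cast; ring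
  have e1 : ∑ u : (ZMod m)ˣ, (if (q : ℤ) ∣ rep u - s then (1 : ℂ) else 0)
        * exp (2 * Real.pi * I * (h * rep u / m))
      = (1 / (q : ℂ)) * ∑ a ∈ range q, exp (-(2 * Real.pi * I * (a * s / q)))
        * ∑ u : (ZMod m)ˣ, ZMod.stdAddChar (((a * m' + h : ℤ) : ZMod m) * (u : ZMod m)) := by
    rw [Finset.mul_sum]
    simp_rw [Finset.mul_sum]
    rw [Finset.sum_comm]
    refine Finset.sum_congr rfl (fun u _ => ?_)
    rw [ind_expand q hq, mul_assoc, Finset.sum_mul, Finset.mul_sum]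
    refine Finset.sum_congr rfl (fun a _ => ?_)
    rw [char_eq, ← exp_add, ← exp_add]
    congr 2
    rw [hmC]
    push_cast
    field_simp
    ring
  rw [e1, norm_mul]
  have hqR : (0 : ℝ) < q := by exact_mod_cast hq
  have e2 : ‖(1 / (q : ℂ))‖ = 1 / (q : ℝ) := by
    rw [norm_div, norm_one, Complex.norm_natCast]
  rw [e2]
  have hterm : ∀ a ∈ range q, (C : ℝ) * ‖exp (-(2 * Real.pi * I * (a * s / q)))
        * ∑ u : (ZMod m)ˣ, ZMod.stdAddChar (((a * m' + h : ℤ) : ZMod m) * (u : ZMod m))‖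
        ≤ (Nat.totient m : ℝ) := by
    intro a _
    rw [norm_mul]
    have hn1 : ‖exp (-(2 * Real.pi * I * ((a : ℂ) * s / q)))‖ = 1 := by
      have : -(2 * Real.pi * I * ((a : ℂ) * s / q)) = ((-(2 * Real.pi * (a * s / q)) : ℝ) : ℂ) * I := by
        push_cast; ring
      rw [this, Complex.norm_exp_ofReal_mul_I]
    rw [hn1, one_mul]
    apply unit_sum_bound C N1 hC
    intro u hu huN hdvd
    apply hh (q * u) (Nat.mul_pos hq hu) (Nat.mul_le_mul_left q huN)
    have : ((q * u : ℕ) : ℤ) * h = q * (u * (a * m' + h)) - u * a * m := by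
      rw [hm']; push_cast; ring
    rw [this]
    exact dvd_sub (Dvd.dvd.mul_left hdvd _) (Dvd.intro_left _ rfl)
  calc (C : ℝ) * (1 / (q : ℝ) * ‖∑ a ∈ range q, exp (-(2 * Real.pi * I * (a * s / q)))
        * ∑ u : (ZMod m)ˣ, ZMod.stdAddChar (((a * m' + h : ℤ) : ZMod m) * (u : ZMod m))‖)
      ≤ (C : ℝ) * (1 / (q : ℝ) * ∑ a ∈ range q, ‖exp (-(2 * Real.pi * I * (a * s / q)))
        * ∑ u : (ZMod m)ˣ, ZMod.stdAddChar (((a * m' + h : ℤ) : ZMod m) * (u : ZMod m))‖) := by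
        gcongr
        exact norm_sum_le _ _
    _ = (1 / (q : ℝ)) * ∑ a ∈ range q, (C : ℝ) * ‖exp (-(2 * Real.pi * I * (a * s / q)))
        * ∑ u : (ZMod m)ˣ, ZMod.stdAddChar (((a * m' + h : ℤ) : ZMod m) * (u : ZMod m))‖ := by
        rw [Finset.mul_sum, Finset.mul_sum, Finset.mul_sum]
        refine Finset.sum_congr rfl (fun a _ => ?_)
        ring
    _ ≤ (1 / (q : ℝ)) * ∑ a ∈ range q, (Nat.totient m : ℝ) := by
        gcongr with a ha
        exact hterm a ha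
    _ = (Nat.totient m : ℝ) := by
        rw [Finset.sum_const, Finset.card_range, nsmul_eq_mul]
        field_simp

/-- The number of units in a residue class. -/
theorem unit_count {m : ℕ} [NeZero m] (q : ℕ) (hq : 0 < q) (hqm : q ∣ m) (s : ℤ)
    (hs : IsCoprime s (q : ℤ)) :
    (Nat.totient m : ℝ) ≤ q * ∑ u : (ZMod m)ˣ, (if (q : ℤ) ∣ rep u - s then (1 : ℝ) else 0) := by
  classical
  have : NeZero q := ⟨hq.ne'⟩
  obtain ⟨w, hw⟩ : ∃ w : (ZMod q)ˣ, (w : ZMod q) = ((s : ℤ) : ZMod q) := by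
    have : IsUnit ((s : ℤ) : ZMod q) := by
      rw [ZMod.coe_int_isUnit_iff_isCoprime]
      exact hs.symm
    exact ⟨this.unit, by simp⟩
  have h1 := sum_units_of_dvd hqm (fun v : (ZMod q)ˣ => if v = w then (1 : ℂ) else 0)
  have h2 : ∀ u : (ZMod m)ˣ, (if ZMod.unitsMap hqm u = w then (1 : ℂ) else 0)
      = (((if (q : ℤ) ∣ rep u - s then (1 : ℝ) else 0) : ℝ) : ℂ) := by
    intro u
    have hiff : ZMod.unitsMap hqm u = w ↔ (q : ℤ) ∣ rep u - s := by
      rw [← Units.val_inj, ZMod.unitsMap_val, hw, ← ZMod.intCast_zmod_eq_zero_iff_dvd]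
      unfold rep
      push_cast
      rw [sub_eq_zero, ZMod.natCast_val]
    by_cases hc : (q : ℤ) ∣ rep u - s
    · rw [if_pos hc, if_pos (hiff.mpr hc)]; simp
    · rw [if_neg hc, if_neg (fun h => hc (hiff.mp h))]; simp
  rw [Finset.sum_congr rfl (fun u _ => h2 u)] at h1
  rw [Finset.sum_ite_eq' Finset.univ w] at h1
  simp only [Finset.mem_univ, if_true, mul_one] at h1
  have h3 : (Nat.totient q : ℝ) * ∑ u : (ZMod m)ˣ, (if (q : ℤ) ∣ rep u - s then (1 : ℝ) else 0)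
      = (Nat.totient m : ℝ) := by
    rw [← Complex.ofReal_sum] at h1
    exact_mod_cast h1
  rw [← h3]
  have : (Nat.totient q : ℝ) ≤ q := by exact_mod_cast Nat.totient_le q
  have h4 : (0 : ℝ) ≤ ∑ u : (ZMod m)ˣ, (if (q : ℤ) ∣ rep u - s then (1 : ℝ) else 0) :=
    Finset.sum_nonneg (fun u _ => by split_ifs <;> norm_num)
  gcongr

end Pool.Agent.FermatFam
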